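import Mathlib

/-!
# MP_9083e4_al: anisotropic `p`-closed Lie algebras in associative algebras

`G` is a Lie subalgebra of an associative algebra `A` over a perfect field of characteristic `p`,
closed under `p`-th powers (`PClosed`) and without nonzero nilpotent elements (`Aniso`).
-/

namespace Pool.Agent.MP9083

open Module

attribute [local instance 100] LieRing.ofAssociativeRing

variable {F : Type*} [Field F] {A : Type*} [Ring A] [Algebra F A]

/-- closed under `p`-th powers -/
def PClosed (p : ℕ) (G : LieSubalgebra F A) : Prop := ∀ x ∈ G, x ^ p ∈ G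

/-- no nonzero nilpotent elements -/
def Aniso (G : LieSubalgebra F A) : Prop := ∀ x ∈ G, IsNilpotent x → x = 0

theorem PClosed.pow_mem {p : ℕ} {G : LieSubalgebra F A} (h : PClosed p G) {x : A} (hx : x ∈ G)
    (k : ℕ) : x ^ p ^ k ∈ G := by
  induction k with
  | zero => simpa using hx
  | succ k ih =>
    rw [pow_succ, pow_mul]
    exact h _ ih

theorem sum_pow_comm (p : ℕ) [Fact p.Prime] [CharP A p] {ι : Type*} (s : Finset ι) (t : ι → A)
    (hc : ∀ i j, Commute (t i) (t j)) (k : ℕ) :
    (∑ i ∈ s, t i) ^ p ^ k = ∑ i ∈ s, t i ^ p ^ k := by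
  classical
  induction s using Finset.induction_on with
  | empty =>
    rw [Finset.sum_empty, Finset.sum_empty, zero_pow]
    exact pow_ne_zero _ (Fact.out (p := p.Prime)).ne_zero
  | insert a s ha ih =>
    rw [Finset.sum_insert ha, Finset.sum_insert ha, ← ih]
    exact add_pow_char_pow_of_commute p k (Commute.sum_right _ _ _ fun j _ => hc a j)

theorem frob_surj (p : ℕ) [Fact p.Prime] [CharP F p] [PerfectRing F p] (k : ℕ) (c : F) :
    ∃ a : F, a ^ p ^ k = c := by
  obtain ⟨a, ha⟩ := (iterateFrobeniusEquiv F p k).surjective c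
  exact ⟨a, by rw [← ha, iterateFrobeniusEquiv_def]⟩

theorem frob_indep (p : ℕ) [Fact p.Prime] [CharP F p] [PerfectRing F p] [CharP A p]
    {G : LieSubalgebra F A} (hA : Aniso G) {ι : Type*} {t : ι → A} (ht : ∀ i, t i ∈ G)
    (hc : ∀ i j, Commute (t i) (t j)) (hli : LinearIndependent F t) (k : ℕ) :
    LinearIndependent F (fun i => t i ^ p ^ k) := by
  rw [linearIndependent_iff'] at hli ⊢
  intro s g hg i hi
  choose r hr using frob_surj (F := F) p k
  have h1 : ∑ i ∈ s, r (g i) • t i = 0 := by
    apply hA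
    · exact G.toSubmodule.sum_mem fun i _ => G.toSubmodule.smul_mem _ (ht i)
    · refine ⟨p ^ k, ?_⟩
      rw [sum_pow_comm p s (fun i => r (g i) • t i)
        (fun i j => ((hc i j).smul_left _).smul_right _) k, ← hg]
      refine Finset.sum_congr rfl fun i _ => ?_
      rw [smul_pow, hr]
  have h2 := hli s (fun i => r (g i)) h1 i hi
  rw [← hr (g i), h2, zero_pow]
  exact pow_ne_zero _ (Fact.out (p := p.Prime)).ne_zero

theorem commute_span {S : Set A} (h : ∀ x ∈ S, ∀ y ∈ S, Commute x y) :
    ∀ x ∈ Submodule.span F S, ∀ y ∈ Submodule.span F S, Commute x y := by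
  intro x hx y hy
  induction hx using Submodule.span_induction with
  | mem x hx =>
    induction hy using Submodule.span_induction with
    | mem y hy => exact h x hx y hy
    | zero => exact Commute.zero_right _
    | add y z _ _ ihy ihz => exact ihy.add_right ihz
    | smul c y _ ih => exact ih.smul_right _
  | zero => exact Commute.zero_left _
  | add y z _ _ ihy ihz => exact ihy.add_left ihz
  | smul c y _ ih => exact ih.smul_left _

/-- `x` is a combination of its high `p`-powers -/
theorem mem_span_pow (p : ℕ) [Fact p.Prime] [CharP F p] [PerfectRing F p] [CharP A p]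
    {G : LieSubalgebra F A} [FiniteDimensional F G] (hP : PClosed p G) (hA : Aniso G) {x : A}
    (hx : x ∈ G) (k : ℕ) : x ∈ Submodule.span F (Set.range fun j : ℕ => x ^ p ^ (k + j)) := by
  set T : ℕ → Submodule F A := fun k => Submodule.span F (Set.range fun j : ℕ => x ^ p ^ (k + j))
    with hT
  have hTG : ∀ k, T k ≤ G.toSubmodule := by
    intro k
    refine Submodule.span_le.mpr ?_
    rintro _ ⟨j, rfl⟩
    exact hP.pow_mem hx _
  have hfin : FiniteDimensional F G.toSubmodule := ‹FiniteDimensional F G›
  have hfT : ∀ k, FiniteDimensional F (T k) := fun k =>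
    Submodule.finiteDimensional_of_le (hTG k)
  have hcomm : ∀ x ∈ T 0, ∀ y ∈ T 0, Commute x y := by
    refine commute_span ?_
    rintro _ ⟨i, rfl⟩ _ ⟨j, rfl⟩
    exact Commute.pow_pow_self _ _ _
  have hle : T k ≤ T 0 := by
    refine Submodule.span_le.mpr ?_
    rintro _ ⟨j, rfl⟩
    refine Submodule.subset_span ⟨k + j, ?_⟩
    simp
  -- the p^k-powers of elements of T 0 are in T k
  have hpow : ∀ t ∈ T 0, t ^ p ^ k ∈ T k := by
    intro t ht
    induction ht using Submodule.span_induction with
    | mem y hy =>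
      obtain ⟨j, rfl⟩ := hy
      refine Submodule.subset_span ⟨j, ?_⟩
      simp only [zero_add]
      rw [← pow_mul, ← pow_add, add_comm]
    | zero =>
      rw [zero_pow (pow_ne_zero _ (Fact.out (p := p.Prime)).ne_zero)]
      exact Submodule.zero_mem _
    | add y z hy hz ihy ihz =>
      rw [add_pow_char_pow_of_commute p k (hcomm _ hy _ hz)]
      exact Submodule.add_mem _ ihy ihz
    | smul c y _ ih =>
      rw [smul_pow]
      exact Submodule.smul_mem _ _ ih
  set n := finrank F (T 0) with hn
  set b := Module.finBasis F (T 0) with hb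
  have h1 : LinearIndependent F (fun i => ((b i : T 0) : A)) :=
    b.linearIndependent.map' (T 0).subtype (Submodule.ker_subtype _)
  have h2 : LinearIndependent F (fun i => ((b i : T 0) : A) ^ p ^ k) :=
    frob_indep p hA (fun i => hTG 0 (b i).2) (fun i j => hcomm _ (b i).2 _ (b j).2) h1 k
  have h3 : LinearIndependent F (fun i => (⟨((b i : T 0) : A) ^ p ^ k, hpow _ (b i).2⟩ : T k)) := by
    apply LinearIndependent.of_comp (T k).subtype
    exact h2
  have h4 : n ≤ finrank F (T k) := by
    have := h3.fintype_card_le_finrank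
    rwa [Fintype.card_fin] at this
  have h5 : T k = T 0 := Submodule.eq_of_le_of_finrank_le hle h4
  have h6 : x ∈ T 0 := Submodule.subset_span ⟨0, by simp⟩
  have h7 : x ∈ T k := by rw [h5]; exact h6
  exact h7

theorem ad_pow_char (p : ℕ) [Fact p.Prime] [CharP F p] [Nontrivial A] (x : A) (k : ℕ) :
    (LieAlgebra.ad F A x) ^ p ^ k = LieAlgebra.ad F A (x ^ p ^ k) := by
  have : CharP (Module.End F A) p :=
    charP_of_injective_algebraMap (algebraMap F (Module.End F A)).injective p
  have h : ∀ x : A, LieAlgebra.ad F A x = LinearMap.mulLeft F x - LinearMap.mulRight F x := by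
    intro x
    ext y
    simp [Ring.lie_def]
  rw [h, h, sub_pow_char_pow_of_commute p k (LinearMap.commute_mulLeft_right x x),
    LinearMap.pow_mulLeft, LinearMap.pow_mulRight]

/-- nilpotently acting means commuting -/
theorem lie_eq_zero_of_pow (p : ℕ) [Fact p.Prime] [CharP F p] [PerfectRing F p]
    {G : LieSubalgebra F A} [FiniteDimensional F G] (hP : PClosed p G) (hA : Aniso G) {x y : A}
    (hx : x ∈ G) (n : ℕ) (h : ((LieAlgebra.ad F A x) ^ n) y = 0) : ⁅x, y⁆ = 0 := by
  rcases subsingleton_or_nontrivial A with hB | hB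
  · exact Subsingleton.elim _ _
  have : CharP A p := charP_of_injective_algebraMap (algebraMap F A).injective p
  have h1 := mem_span_pow p hP hA hx n
  have h2 : Submodule.span F (Set.range fun j : ℕ => x ^ p ^ (n + j)) ≤
      LinearMap.ker ((LieAlgebra.ad F A).toLinearMap.flip y) := by
    refine Submodule.span_le.mpr ?_
    rintro _ ⟨j, rfl⟩
    rw [SetLike.mem_coe, LinearMap.mem_ker, LinearMap.flip_apply]
    change LieAlgebra.ad F A (x ^ p ^ (n + j)) y = 0
    rw [← ad_pow_char]
    have hle : n ≤ p ^ (n + j) :=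
      (Nat.le_add_right n j).trans (Nat.lt_pow_self (Fact.out (p := p.Prime)).one_lt).le
    rw [← Nat.sub_add_cancel hle, pow_add, Module.End.mul_apply, h, map_zero]
  have h3 := h2 h1
  rw [LinearMap.mem_ker, LinearMap.flip_apply] at h3
  exact h3

/-- the adjoint action of `G` on itself and on `A` -/
theorem coe_ad_pow (G : LieSubalgebra F A) (x y : G) (n : ℕ) :
    (((LieAlgebra.ad F G x) ^ n) y : A) = ((LieAlgebra.ad F A (x : A)) ^ n) (y : A) := by
  induction n with
  | zero => simp
  | succ n ih =>
    rw [pow_succ', pow_succ', Module.End.mul_apply, Module.End.mul_apply, ← ih]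
    rfl

theorem lie_eq_zero_of_pow' (p : ℕ) [Fact p.Prime] [CharP F p] [PerfectRing F p]
    {G : LieSubalgebra F A} [FiniteDimensional F G] (hP : PClosed p G) (hA : Aniso G) (x y : G)
    (n : ℕ) (h : ((LieAlgebra.ad F G x) ^ n) y = 0) : ⁅x, y⁆ = 0 := by
  have h1 := coe_ad_pow G x y n
  rw [h, ZeroMemClass.coe_zero] at h1
  have h2 := lie_eq_zero_of_pow p hP hA x.2 n h1.symm
  exact Subtype.ext h2

/-- the image of `G` under its adjoint representation -/
noncomputable def adRange (G : LieSubalgebra F A) : LieSubalgebra F (Module.End F G) :=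
  (LieAlgebra.ad F G).range

theorem pclosed_adRange (p : ℕ) [Fact p.Prime] [CharP F p] {G : LieSubalgebra F A}
    (hP : PClosed p G) : PClosed p (adRange G) := by
  rintro _ ⟨x, rfl⟩
  rcases subsingleton_or_nontrivial A with hB | hB
  · have h0 : ((LieAlgebra.ad F G) x) ^ p = 0 := by
      ext y
      exact Subsingleton.elim _ _
    change ((LieAlgebra.ad F G) x) ^ p ∈ adRange G
    rw [h0]
    exact (adRange G).zero_mem
  refine ⟨⟨(x : A) ^ p, hP _ x.2⟩, ?_⟩
  ext y
  have h1 := coe_ad_pow G x y p
  have h2 := ad_pow_char (F := F) p (x : A) 1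
  rw [pow_one] at h2
  rw [h2] at h1
  exact h1.symm

theorem aniso_adRange (p : ℕ) [Fact p.Prime] [CharP F p] [PerfectRing F p]
    {G : LieSubalgebra F A} [FiniteDimensional F G] (hP : PClosed p G) (hA : Aniso G) :
    Aniso (adRange G) := by
  rintro _ ⟨x, rfl⟩ ⟨n, hn⟩
  refine LinearMap.ext fun y => ?_
  refine lie_eq_zero_of_pow' p hP hA x y n ?_
  have h1 : ((LieAlgebra.ad F G) x) ^ n = 0 := hn
  rw [h1]
  rfl

end Pool.Agent.MP9083
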