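import Mathlib

/-!
# MP_9083e4_al: Jacobson's lemma

If `S` is a subspace of an associative algebra of characteristic `p` which is closed under
commutators, and `a, b ∈ S`, then `(a + b) ^ p - a ^ p - b ^ p ∈ S`.
-/

namespace Pool.Agent.MP9083

open Polynomial Finset

theorem choose_pred (p : ℕ) [hp : Fact p.Prime] (R : Type*) [Ring R] [CharP R p] :
    ∀ k, k < p → (((p - 1).choose k : ℕ) : R) = (-1) ^ k := by
  intro k
  induction k with
  | zero => intro _; simp
  | succ k ih =>
    intro hk
    have h0 : p - 1 + 1 = p := Nat.sub_add_cancel hp.out.one_le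
    have h1 : (p - 1).choose k + (p - 1).choose (k + 1) = p.choose (k + 1) := by
      have := Nat.choose_succ_succ (p - 1) k
      simp only [Nat.succ_eq_add_one, h0] at this
      exact this.symm
    have h2 : ((p.choose (k + 1) : ℕ) : R) = 0 := by
      rw [CharP.cast_eq_zero_iff R p]
      exact hp.out.dvd_choose_self (Nat.succ_ne_zero k) hk
    have h3 := ih (by omega)
    have h4 : (((p - 1).choose k : ℕ) : R) + (((p - 1).choose (k + 1) : ℕ) : R) = 0 := by
      rw [← Nat.cast_add, h1, h2]
    rw [h3] at h4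
    rw [pow_succ, mul_neg_one]
    exact eq_neg_of_add_eq_zero_right h4

theorem neg_one_pow_pred (p : ℕ) [hp : Fact p.Prime] (R : Type*) [Ring R] [CharP R p] :
    (-1 : R) ^ (p - 1) = 1 := by
  rcases hp.out.eq_two_or_odd' with h | h
  · subst h
    rw [show 2 - 1 = 1 from rfl, pow_one]
    exact CharTwo.neg_eq 1
  · exact (Nat.Odd.sub_odd h odd_one).neg_one_pow

theorem sub_pow_pred (p : ℕ) [hp : Fact p.Prime] {R : Type*} [Ring R] [CharP R p] {L M : R}
    (h : Commute L M) : (L - M) ^ (p - 1) = ∑ k ∈ range p, L ^ k * M ^ (p - 1 - k) := by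
  have h0 : p - 1 + 1 = p := Nat.sub_add_cancel hp.out.one_le
  rw [sub_eq_add_neg, h.neg_right.add_pow, h0]
  refine sum_congr rfl fun k hk => ?_
  have hk' := mem_range.mp hk
  rw [choose_pred p R k hk', neg_pow, ← mul_assoc, mul_assoc (L ^ k * (-1) ^ (p - 1 - k)),
    mul_assoc (L ^ k)]
  have h1 : Commute ((-1 : R) ^ k) (M ^ (p - 1 - k)) :=
    ((Commute.neg_one_left (M ^ (p - 1 - k))).pow_left k)
  rw [← h1.eq, ← mul_assoc ((-1) ^ (p - 1 - k)), ← pow_add, Nat.sub_add_cancel (by omega),
    neg_one_pow_pred, one_mul]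

section jac

variable {K : Type*} [Field K] {B : Type*} [Ring B] [Algebra K B]

theorem coeff_lie_mem {S : Submodule K B} (hS : ∀ x ∈ S, ∀ y ∈ S, x * y - y * x ∈ S)
    {f g : B[X]} (hf : ∀ n, f.coeff n ∈ S) (hg : ∀ n, g.coeff n ∈ S) (n : ℕ) :
    (f * g - g * f).coeff n ∈ S := by
  rw [coeff_sub, coeff_mul, coeff_mul]
  have h1 : ∑ x ∈ antidiagonal n, g.coeff x.1 * f.coeff x.2 =
      ∑ x ∈ antidiagonal n, g.coeff x.2 * f.coeff x.1 := by
    rw [← Finset.Nat.sum_antidiagonal_swap]
    rfl
  rw [h1, ← sum_sub_distrib]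
  exact Submodule.sum_mem _ fun x _ => hS _ (hf _) _ (hg _)

theorem derivative_pow_nc (w : B[X]) (n : ℕ) :
    derivative (w ^ n) = ∑ k ∈ range n, w ^ k * derivative w * w ^ (n - 1 - k) := by
  induction n with
  | zero => simp
  | succ n ih =>
    rw [pow_succ, derivative_mul, ih, sum_range_succ, Finset.sum_mul]
    congr 1
    · refine sum_congr rfl fun k hk => ?_
      have := mem_range.mp hk
      rw [mul_assoc, ← pow_succ]
      congr 2
      omega
    · simp

theorem jac_coeff (p : ℕ) [hp : Fact p.Prime] [CharP K p] {S : Submodule K B}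
    (hS : ∀ x ∈ S, ∀ y ∈ S, x * y - y * x ∈ S) {a b : B} (ha : a ∈ S) (hb : b ∈ S) (n : ℕ)
    (hn : n + 1 < p) : ((C a * X + C b) ^ p).coeff (n + 1) ∈ S := by
  rcases subsingleton_or_nontrivial B with hB | hB
  · have h0 : ((C a * X + C b) ^ p).coeff (n + 1) = 0 := Subsingleton.elim _ _
    rw [h0]
    exact S.zero_mem
  have : CharP (Module.End K B[X]) p :=
    charP_of_injective_algebraMap (algebraMap K (Module.End K B[X])).injective p
  set w : B[X] := C a * X + C b with hw
  have hwS : ∀ n, w.coeff n ∈ S := by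
    intro n
    rw [hw, coeff_add]
    refine S.add_mem ?_ ?_
    · rw [coeff_C_mul, coeff_X]
      split_ifs
      · rwa [mul_one]
      · rw [mul_zero]
        exact S.zero_mem
    · rw [coeff_C]
      split_ifs
      · exact hb
      · exact S.zero_mem
  have hdw : derivative w = C a := by
    rw [hw]
    simp
  have haS : ∀ n, (C a : B[X]).coeff n ∈ S := by
    intro n
    rw [coeff_C]
    split_ifs
    · exact ha
    · exact S.zero_mem
  have hcomm : Commute (LinearMap.mulLeft K w) (LinearMap.mulRight K w) :=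
    LinearMap.commute_mulLeft_right w w
  have h1 : derivative (w ^ p) =
      ((LinearMap.mulLeft K w - LinearMap.mulRight K w) ^ (p - 1)) (C a) := by
    rw [sub_pow_pred p hcomm, derivative_pow_nc, LinearMap.sum_apply, hdw]
    refine sum_congr rfl fun k _ => ?_
    rw [LinearMap.pow_mulLeft, LinearMap.pow_mulRight, Module.End.mul_apply,
      LinearMap.mulLeft_apply, LinearMap.mulRight_apply, mul_assoc]
  have h2 : ∀ m n, (((LinearMap.mulLeft K w - LinearMap.mulRight K w) ^ m) (C a)).coeff n ∈ S := by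
    intro m
    induction m with
    | zero =>
      intro n
      rw [pow_zero]
      exact haS n
    | succ m ih =>
      intro n
      rw [pow_succ', Module.End.mul_apply, LinearMap.sub_apply, LinearMap.mulLeft_apply,
        LinearMap.mulRight_apply]
      exact coeff_lie_mem hS hwS ih n
  have h3 : (derivative (w ^ p)).coeff n ∈ S := by
    rw [h1]
    exact h2 _ _
  rw [coeff_derivative] at h3
  have h4 : (w ^ p).coeff (n + 1) * ((n : B) + 1) = ((n + 1 : ℕ) : K) • (w ^ p).coeff (n + 1) := by
    rw [Algebra.smul_def, map_natCast, Nat.cast_add, Nat.cast_one]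
    have : Commute ((w ^ p).coeff (n + 1)) (((n + 1 : ℕ) : B)) := Nat.commute_cast _ _
    rw [Nat.cast_add, Nat.cast_one] at this
    exact this.eq
  rw [h4] at h3
  have h5 : ((n + 1 : ℕ) : K) ≠ 0 := by
    intro h6
    rw [CharP.cast_eq_zero_iff K p] at h6
    exact absurd (Nat.le_of_dvd (Nat.succ_pos n) h6) (by omega)
  exact (Submodule.smul_mem_iff _ h5).mp h3

/-- Jacobson's lemma. -/
theorem jacobson (p : ℕ) [hp : Fact p.Prime] [CharP K p] {S : Submodule K B}
    (hS : ∀ x ∈ S, ∀ y ∈ S, x * y - y * x ∈ S) {a b : B} (ha : a ∈ S) (hb : b ∈ S) :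
    ∃ s ∈ S, (a + b) ^ p = b ^ p + s + a ^ p := by
  set w : B[X] := C a * X + C b with hw
  set ev : B[X] →+* B := eval₂RingHom' (RingHom.id B) 1 (fun a => Commute.one_right _) with hev
  have hevw : ev w = a + b := by
    rw [hw, hev]
    simp
  have hdeg : w.natDegree ≤ 1 := by
    rw [hw]
    exact natDegree_linear_le
  have hdegp : (w ^ p).natDegree ≤ p := by
    have := natDegree_pow_le_of_le p hdeg
    rwa [mul_one] at this
  have h1 : (a + b) ^ p = ∑ i ∈ range (p + 1), (w ^ p).coeff i := by
    rw [← hevw, ← map_pow]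
    conv_lhs => rw [(w ^ p).as_sum_range' (p + 1) (by omega)]
    rw [map_sum]
    refine sum_congr rfl fun i _ => ?_
    rw [hev]
    simp
  have h0 : p - 1 + 1 = p := Nat.sub_add_cancel hp.out.one_le
  refine ⟨∑ i ∈ range (p - 1), (w ^ p).coeff (i + 1), ?_, ?_⟩
  · refine Submodule.sum_mem _ fun i hi => ?_
    have := mem_range.mp hi
    exact jac_coeff p hS ha hb i (by omega)
  · rw [h1, sum_range_succ]
    have h2 : ∑ i ∈ range p, (w ^ p).coeff i =
        ∑ i ∈ range (p - 1), (w ^ p).coeff (i + 1) + (w ^ p).coeff 0 := by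
      conv_lhs => rw [← h0]
      rw [sum_range_succ']
      rw [h0]
    rw [h2]
    have h3 : (w ^ p).coeff 0 = b ^ p := by
      have h4 : constantCoeff (w ^ p) = (constantCoeff w) ^ p := map_pow _ _ _
      rw [constantCoeff_apply, constantCoeff_apply] at h4
      rw [h4, hw]
      simp
    have h5 : (w ^ p).coeff p = a ^ p := by
      have h6 := coeff_pow_of_natDegree_le (m := p) hdeg
      rw [mul_one] at h6
      rw [h6, hw]
      simp
    rw [h3, h5]
    abel

/-- closedness under `p`-th powers can be checked on generators -/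
theorem pow_mem_of_span (p : ℕ) [hp : Fact p.Prime] [CharP K p] {s : Set B}
    (hS : ∀ x ∈ Submodule.span K s, ∀ y ∈ Submodule.span K s, x * y - y * x ∈ Submodule.span K s)
    (h : ∀ x ∈ s, x ^ p ∈ Submodule.span K s) :
    ∀ x ∈ Submodule.span K s, x ^ p ∈ Submodule.span K s := by
  intro x hx
  induction hx using Submodule.span_induction with
  | mem x hx => exact h x hx
  | zero =>
    rw [zero_pow hp.out.ne_zero]
    exact Submodule.zero_mem _
  | add x y hx hy ihx ihy =>
    obtain ⟨s, hs, he⟩ := jacobson p hS hx hy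
    rw [he]
    exact Submodule.add_mem _ (Submodule.add_mem _ ihy hs) ihx
  | smul c x hx ih =>
    rw [_root_.smul_pow]
    exact Submodule.smul_mem _ _ ih

end jac

end Pool.Agent.MP9083
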