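import Mathlib

/-!
# MP_9083e4_al: polynomial curves and linearly independent p-powers

* `openness`: a family of polynomial curves which is linearly independent at one parameter is
  linearly independent outside of the zeros of a nonzero polynomial.
* `exists_indep_pow`: given `b` bases `e j` of a space of dimension `b` over an infinite field and
  `p ≥ 2`, the vectors `∑ i, k i ^ p ^ j • e j i` are linearly independent for suitable `k`.
-/

namespace Pool.Agent.MP9083

open Finset

section poly

variable {K : Type*} [Field K] {W : Type*} [AddCommGroup W] [Module K W]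

/-- polynomial functions `K → W` -/
def polyFun (K : Type*) [Field K] (W : Type*) [AddCommGroup W] [Module K W] :
    Submodule K (K → W) :=
  Submodule.span K {f | ∃ (i : ℕ) (c : W), f = fun s => s ^ i • c}

theorem polyFun_mono (i : ℕ) (c : W) : (fun s : K => s ^ i • c) ∈ polyFun K W :=
  Submodule.subset_span ⟨i, c, rfl⟩

theorem polyFun_const (c : W) : (fun _ : K => c) ∈ polyFun K W := by
  have := polyFun_mono (K := K) 0 c
  simpa using this

theorem polyFun_line (c : W) : (fun s : K => s • c) ∈ polyFun K W := by
  have := polyFun_mono (K := K) 1 c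
  simpa using this

theorem polyFun_map {W' : Type*} [AddCommGroup W'] [Module K W'] (l : W →ₗ[K] W') {f : K → W}
    (hf : f ∈ polyFun K W) : (fun s => l (f s)) ∈ polyFun K W' := by
  induction hf using Submodule.span_induction with
  | mem x hx =>
    obtain ⟨i, c, rfl⟩ := hx
    have := polyFun_mono (K := K) i (l c)
    simpa using this
  | zero =>
    have : (fun s : K => l ((0 : K → W) s)) = 0 := by
      funext s
      simp
    rw [this]
    exact Submodule.zero_mem _
  | add x y _ _ hx hy =>
    have : (fun s : K => l ((x + y) s)) = (fun s => l (x s)) + fun s => l (y s) := by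
      funext s
      simp
    rw [this]
    exact Submodule.add_mem _ hx hy
  | smul a x _ hx =>
    have : (fun s : K => l ((a • x) s)) = a • fun s => l (x s) := by
      funext s
      simp
    rw [this]
    exact Submodule.smul_mem _ _ hx

theorem polyFun_eval {f : K → K} (hf : f ∈ polyFun K K) :
    ∃ Q : Polynomial K, ∀ s, f s = Q.eval s := by
  induction hf using Submodule.span_induction with
  | mem x hx =>
    obtain ⟨i, c, rfl⟩ := hx
    refine ⟨Polynomial.X ^ i * Polynomial.C c, fun s => ?_⟩
    rw [Polynomial.eval_mul, Polynomial.eval_pow, Polynomial.eval_X, Polynomial.eval_C]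
    rfl
  | zero => exact ⟨0, fun s => by simp⟩
  | add x y _ _ hx hy =>
    obtain ⟨P, hP⟩ := hx
    obtain ⟨Q, hQ⟩ := hy
    exact ⟨P + Q, fun s => by simp [hP, hQ]⟩
  | smul a x _ hx =>
    obtain ⟨P, hP⟩ := hx
    exact ⟨Polynomial.C a * P, fun s => by simp [hP]⟩

theorem polyFun_mul {B : Type*} [Ring B] [Algebra K B] {f g : K → B}
    (hf : f ∈ polyFun K B) (hg : g ∈ polyFun K B) : f * g ∈ polyFun K B := by
  have h := Submodule.mul_mem_mul hf hg
  unfold polyFun at h
  rw [Submodule.span_mul_span] at h
  refine Submodule.span_le.mpr ?_ h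
  rintro _ ⟨x, ⟨i, c, rfl⟩, y, ⟨j, d, rfl⟩, rfl⟩
  have h2 : (fun s : K => (fun s => s ^ i • c) s * (fun s => s ^ j • d) s) =
      fun s : K => s ^ (i + j) • (c * d) := by
    funext s
    simp only [smul_mul_smul_comm, pow_add]
  have h3 := polyFun_mono (K := K) (i + j) (c * d)
  rw [← h2] at h3
  exact h3

theorem polyFun_pow {B : Type*} [Ring B] [Algebra K B] {f : K → B}
    (hf : f ∈ polyFun K B) (n : ℕ) : f ^ n ∈ polyFun K B := by
  induction n with
  | zero =>
    rw [pow_zero]
    exact polyFun_const 1
  | succ n ih =>
    rw [pow_succ]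
    exact polyFun_mul ih hf

/-- Linear independence is an open condition along polynomial curves. -/
theorem openness {m : ℕ} (f : Fin m → K → W) (hf : ∀ i, f i ∈ polyFun K W) (s₀ : K)
    (h : LinearIndependent K (fun i => f i s₀)) :
    ∃ Q : Polynomial K, Q.eval s₀ ≠ 0 ∧
      ∀ s, Q.eval s ≠ 0 → LinearIndependent K (fun i => f i s) := by
  classical
  obtain ⟨l, hl⟩ := LinearMap.exists_leftInverse_of_injective
    (Fintype.linearCombination K (fun i => f i s₀))
    (LinearMap.ker_eq_bot.mpr (h.fintypeLinearCombination_injective))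
  have hl2 : ∀ i, l (f i s₀) = Pi.single i 1 := by
    intro i
    have := LinearMap.congr_fun hl (Pi.single i 1)
    simpa using this
  have hq : ∀ i j, ∃ Q : Polynomial K, ∀ s, l (f j s) i = Q.eval s := by
    intro i j
    have h1 := polyFun_map ((LinearMap.proj i : (Fin m → K) →ₗ[K] K).comp l) (hf j)
    exact polyFun_eval h1
  choose Q hQ using hq
  refine ⟨(Matrix.of fun i j => Q i j).det, ?_, ?_⟩
  · have h1 : ((Matrix.of fun i j => Q i j).det).eval s₀ = 1 := by
      have h2 : ((Matrix.of fun i j => Q i j).det).eval s₀ =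
          ((Matrix.of fun i j => Q i j).map (Polynomial.evalRingHom s₀)).det := by
        have := RingHom.map_det (Polynomial.evalRingHom s₀) (Matrix.of fun i j => Q i j)
        simpa using this
      rw [h2]
      have h3 : (Matrix.of fun i j => Q i j).map (Polynomial.evalRingHom s₀) = 1 := by
        ext i j
        simp only [Matrix.map_apply, Matrix.of_apply, Polynomial.coe_evalRingHom]
        rw [← hQ, hl2, Matrix.one_apply, Pi.single_apply]
      rw [h3, Matrix.det_one]
    rw [h1]
    exact one_ne_zero
  · intro s hs
    have h2 : ((Matrix.of fun i j => Q i j).det).eval s =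
        (Matrix.of fun i j => l (f j s) i).det := by
      have := RingHom.map_det (Polynomial.evalRingHom s) (Matrix.of fun i j => Q i j)
      rw [Polynomial.coe_evalRingHom] at this
      rw [this]
      congr 1
      ext i j
      simp only [RingHom.mapMatrix_apply, Matrix.map_apply, Matrix.of_apply,
        Polynomial.coe_evalRingHom]
      exact (hQ i j s).symm
    rw [h2] at hs
    have h3 := Matrix.linearIndependent_cols_of_det_ne_zero hs
    have h4 : (Matrix.of fun i j => l (f j s) i).col = fun j => l (f j s) := by
      funext j i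
      rfl
    rw [h4] at h3
    exact LinearIndependent.of_comp l h3

/-- a nonzero polynomial over an infinite field does not vanish somewhere -/
theorem exists_eval_ne [Infinite K] {Q : Polynomial K} (h : Q ≠ 0) : ∃ s, Q.eval s ≠ 0 := by
  by_contra hno
  push Not at hno
  exact h (Polynomial.funext fun s => by rw [hno s, Polynomial.eval_zero])

end poly

section pow

/-- the exponent vector of the monomial `∏ j, x (φ j) ^ p ^ j` -/
noncomputable def expo (p b : ℕ) (φ : Fin b → Fin b) : Fin b →₀ ℕ :=
  ∑ j : Fin b, Finsupp.single (φ j) (p ^ (j : ℕ))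

theorem expo_apply (p b : ℕ) (φ : Fin b → Fin b) (i : Fin b) :
    expo p b φ i = ∑ k ∈ (univ.filter (fun j : Fin b => φ j = i)).map Fin.valEmbedding, p ^ k := by
  classical
  unfold expo
  rw [Finsupp.finsetSum_apply, sum_map, sum_filter]
  refine sum_congr rfl fun j _ => ?_
  rw [Finsupp.single_apply]
  rfl

theorem expo_injective {p : ℕ} (hp : 2 ≤ p) (b : ℕ) : Function.Injective (expo p b) := by
  classical
  intro φ ψ h
  funext j
  have h1 := DFunLike.congr_fun h (φ j)
  rw [expo_apply, expo_apply] at h1
  have h2 := Finset.geomSum_injective hp h1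
  have h3 : (j : ℕ) ∈ (univ.filter (fun i : Fin b => φ i = φ j)).map Fin.valEmbedding := by
    rw [mem_map]
    exact ⟨j, by simp, rfl⟩
  rw [h2, mem_map] at h3
  obtain ⟨i, hi, hij⟩ := h3
  have h4 : i = j := Fin.ext hij
  subst h4
  rw [mem_filter] at hi
  exact hi.2.symm

/-- Lemma M. -/
theorem exists_indep_pow {K : Type*} [Field K] [Infinite K] {W : Type*} [AddCommGroup W]
    [Module K W] {p : ℕ} (hp : 2 ≤ p) {b : ℕ} (e : Fin b → Module.Basis (Fin b) K W) :
    ∃ k : Fin b → K, LinearIndependent K
      (fun j : Fin b => ∑ i : Fin b, k i ^ p ^ (j : ℕ) • e j i) := by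
  classical
  rcases Nat.eq_zero_or_pos b with rfl | hb
  · exact ⟨fun _ => 0, linearIndependent_empty_type⟩
  set e0 := e ⟨0, hb⟩ with he0
  by_contra hno
  push Not at hno
  set ω : (Fin b → Fin b) → K := fun φ => e0.det (fun j => e j (φ j)) with hω
  -- the determinant vanishes at all points
  have hdet : ∀ k : Fin b → K,
      e0.det (fun j : Fin b => ∑ i : Fin b, k i ^ p ^ (j : ℕ) • e j i) = 0 := by
    intro k
    by_contra hne
    exact hno k ((e0.is_basis_iff_det).mpr (isUnit_iff_ne_zero.mpr hne)).1
  have hexp : ∀ k : Fin b → K, ∑ φ : Fin b → Fin b, (∏ j : Fin b, k (φ j) ^ p ^ (j : ℕ)) * ω φ = 0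
      := by
    intro k
    rw [← hdet k]
    have h1 := MultilinearMap.map_sum e0.det.toMultilinearMap
      (g := fun (j : Fin b) (i : Fin b) => k i ^ p ^ (j : ℕ) • e j i)
    have h2 : e0.det (fun j : Fin b => ∑ i : Fin b, k i ^ p ^ (j : ℕ) • e j i) =
        ∑ φ : Fin b → Fin b, e0.det.toMultilinearMap
          (fun j => k (φ j) ^ p ^ (j : ℕ) • e j (φ j)) := h1
    rw [h2]
    refine sum_congr rfl fun φ _ => ?_
    rw [MultilinearMap.map_smul_univ]
    rfl
  -- the polynomial is zero
  set P : MvPolynomial (Fin b) K := ∑ φ : Fin b → Fin b, MvPolynomial.monomial (expo p b φ) (ω φ)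
    with hP
  have hP0 : P = 0 := by
    apply MvPolynomial.funext
    intro k
    rw [map_zero, hP, map_sum, ← hexp k]
    refine sum_congr rfl fun φ _ => ?_
    rw [MvPolynomial.eval_monomial, mul_comm]
    congr 1
    unfold expo
    rw [Finsupp.prod_fintype _ _ (fun i => pow_zero _)]
    simp only [Finsupp.finsetSum_apply]
    simp_rw [← Finset.prod_pow_eq_pow_sum]
    rw [Finset.prod_comm]
    refine prod_congr rfl fun j _ => ?_
    rw [Finset.prod_eq_single (φ j)]
    · rw [Finsupp.single_eq_same]
    · intro i _ hi
      rw [Finsupp.single_eq_of_ne hi, pow_zero]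
    · intro h
      exact absurd (mem_univ _) h
  have hωz : ∀ φ, ω φ = 0 := by
    intro φ
    have h1 : MvPolynomial.coeff (expo p b φ) P = ω φ := by
      rw [hP, MvPolynomial.coeff_sum, Finset.sum_eq_single φ]
      · rw [MvPolynomial.coeff_monomial, if_pos rfl]
      · intro ψ _ hψ
        rw [MvPolynomial.coeff_monomial, if_neg]
        intro h
        exact hψ (expo_injective hp b h)
      · intro h
        exact absurd (mem_univ _) h
    rw [← h1, hP0, MvPolynomial.coeff_zero]
  -- so the determinant is zero
  have hz : e0.det.toMultilinearMap = 0 :=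
    Module.Basis.ext_multilinear (fun j => e j) fun φ => hωz φ
  have h1 : e0.det (fun i => e0 i) = 1 := e0.det_self
  have h2 : e0.det (fun i => e0 i) = 0 := by
    have := congrArg (fun g => g (fun i => e0 i)) hz
    simpa using this
  rw [h1] at h2
  exact one_ne_zero h2

end pow

end Pool.Agent.MP9083
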