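import Mathlib
import Pool.Agent.Lib.MP_9083e4_al.Poly
import Pool.Agent.Lib.MP_9083e4_al.Jac
import Pool.Agent.Lib.MP_9083e4_al.Aniso

/-!
# MP_9083e4_al: torus dimension versus centralizer dimension

If `T` is a commutative `p`-closed subspace of the anisotropic `G` and `x0 ∈ G`, then
`dim T + rank (ad x0) ≤ dim G`.
-/

namespace Pool.Agent.MP9083

open Module TensorProduct

attribute [local instance 100] LieRing.ofAssociativeRing

theorem span_comm_closed {K B : Type*} [Field K] [Ring B] [Algebra K B] {s : Set B}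
    (h : ∀ x ∈ s, ∀ y ∈ s, x * y - y * x ∈ Submodule.span K s) :
    ∀ x ∈ Submodule.span K s, ∀ y ∈ Submodule.span K s, x * y - y * x ∈ Submodule.span K s := by
  intro x hx y hy
  induction hx using Submodule.span_induction with
  | mem x hx =>
    induction hy using Submodule.span_induction with
    | mem y hy => exact h x hx y hy
    | zero => simp
    | add y z _ _ ihy ihz =>
      have : x * (y + z) - (y + z) * x = (x * y - y * x) + (x * z - z * x) := by noncomm_ring
      rw [this]
      exact Submodule.add_mem _ ihy ihz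
    | smul c y _ ih =>
      have : x * (c • y) - (c • y) * x = c • (x * y - y * x) := by
        rw [mul_smul_comm, smul_mul_assoc, smul_sub]
      rw [this]
      exact Submodule.smul_mem _ _ ih
  | zero => simp
  | add x z _ _ ihy ihz =>
    have : (x + z) * y - y * (x + z) = (x * y - y * x) + (z * y - y * z) := by noncomm_ring
    rw [this]
    exact Submodule.add_mem _ ihy ihz
  | smul c x _ ih =>
    have : (c • x) * y - y * (c • x) = c • (x * y - y * x) := by
      rw [mul_smul_comm, smul_mul_assoc, smul_sub]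
    rw [this]
    exact Submodule.smul_mem _ _ ih

variable {F : Type*} [Field F] {A : Type*} [Ring A] [Algebra F A]

/-- the rank computation in the extended algebra -/
theorem rank_le {K B : Type*} [Field K] [Ring B] [Algebra K B] (S : Submodule K B)
    [FiniteDimensional K S] (hS : ∀ x ∈ S, ∀ y ∈ S, x * y - y * x ∈ S) {m b : ℕ} (X : B)
    (hX : X ∈ S) (Y : Fin b → B) (hY : ∀ i, Y i ∈ S) (Z : Fin m → B) (hZ : ∀ i, Z i ∈ S)
    (hXZ : ∀ i, Commute X (Z i)) (h1 : LinearIndependent K (fun i => X * Y i - Y i * X))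
    (h2 : LinearIndependent K Z) : m + b ≤ finrank K S := by
  set D0 : B →ₗ[K] B := LinearMap.mulLeft K X - LinearMap.mulRight K X with hD0
  have hD0a : ∀ z, D0 z = X * z - z * X := fun z => rfl
  set D : S →ₗ[K] S := D0.restrict (fun z hz => by rw [hD0a]; exact hS X hX z hz) with hD
  have hDa : ∀ z : S, ((D z : S) : B) = X * z - z * X := fun z => rfl
  have h3 : LinearIndependent K (fun i => (⟨⟨Z i, hZ i⟩, by
      rw [LinearMap.mem_ker]
      apply Subtype.ext
      rw [hDa]
      exact sub_eq_zero.mpr (hXZ i).eq⟩ : LinearMap.ker D)) := by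
    apply LinearIndependent.of_comp (LinearMap.ker D).subtype
    apply LinearIndependent.of_comp S.subtype
    exact h2
  have h4 : LinearIndependent K (fun i => (⟨D ⟨Y i, hY i⟩, ⟨_, rfl⟩⟩ : LinearMap.range D)) := by
    apply LinearIndependent.of_comp (LinearMap.range D).subtype
    apply LinearIndependent.of_comp S.subtype
    exact h1
  have h5 := h3.fintype_card_le_finrank
  have h6 := h4.fintype_card_le_finrank
  rw [Fintype.card_fin] at h5 h6
  have h7 := LinearMap.finrank_range_add_finrank_ker D
  omega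

theorem key_le_aux (K : Type*) [Field K] [Algebra F K] [Infinite K] (p : ℕ) [hp : Fact p.Prime] [CharP F p] [PerfectRing F p] {G : LieSubalgebra F A}
    [FiniteDimensional F G] (hP : PClosed p G) (hA : Aniso G) {T : Submodule F A}
    (hTG : T ≤ G.toSubmodule) (hTp : ∀ x ∈ T, x ^ p ∈ T) (hTc : ∀ x ∈ T, ∀ y ∈ T, Commute x y)
    (x0 : G) :
    finrank F T + finrank F (LinearMap.range (LieAlgebra.ad F G x0)) ≤ finrank F G := by
  classical
  have hfin : FiniteDimensional F G.toSubmodule := ‹FiniteDimensional F G›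
  have hfT : FiniteDimensional F T := Submodule.finiteDimensional_of_le hTG
  rcases subsingleton_or_nontrivial A with hA0 | hA0
  · have h1 : Subsingleton T := inferInstance
    have h2 : Subsingleton (LinearMap.range (LieAlgebra.ad F G x0)) := inferInstance
    rw [finrank_zero_of_subsingleton, finrank_zero_of_subsingleton]
    exact Nat.zero_le _
  have hcA : CharP A p := charP_of_injective_algebraMap (algebraMap F A).injective p
  have hcK : CharP K p := charP_of_injective_algebraMap (algebraMap F K).injective p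
  have hinj : Function.Injective (Algebra.TensorProduct.includeRight : A →ₐ[F] K ⊗[F] A) :=
    Algebra.TensorProduct.includeRight_injective (algebraMap F K).injective
  have hBn : Nontrivial (K ⊗[F] A) := hinj.nontrivial
  have hcB : CharP (K ⊗[F] A) p := charP_of_injective_algebraMap (algebraMap K (K ⊗[F] A)).injective p
  set ι : A → K ⊗[F] A := fun a => (1 : K) ⊗ₜ[F] a with hι
  have hιmul : ∀ a b, ι a * ι b = ι (a * b) := by
    intro a b
    simp only [hι, Algebra.TensorProduct.tmul_mul_tmul, mul_one]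
  have hιpow : ∀ a (n : ℕ), (ι a) ^ n = ι (a ^ n) := by
    intro a n
    simp only [hι, Algebra.TensorProduct.tmul_pow, one_pow]
  have hιsub : ∀ a b, ι a - ι b = ι (a - b) := by
    intro a b
    simp only [hι, TensorProduct.tmul_sub]
  -- the extended algebra
  set s : Set (K ⊗[F] A) := Set.range (fun g : G => ι (g : A)) with hs
  set S : Submodule K (K ⊗[F] A) := Submodule.span K s with hS
  have hSc : ∀ x ∈ S, ∀ y ∈ S, x * y - y * x ∈ S := by
    refine span_comm_closed ?_
    rintro _ ⟨x, rfl⟩ _ ⟨y, rfl⟩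
    rw [hιmul, hιmul, hιsub]
    exact Submodule.subset_span ⟨⁅x, y⁆, rfl⟩
  have hSp : ∀ x ∈ S, x ^ p ∈ S := by
    refine pow_mem_of_span p hSc ?_
    rintro _ ⟨x, rfl⟩
    simp only [hιpow]
    exact Submodule.subset_span ⟨⟨(x : A) ^ p, hP _ x.2⟩, rfl⟩
  have hSp' : ∀ x ∈ S, ∀ k : ℕ, x ^ p ^ k ∈ S := by
    intro x hx k
    induction k with
    | zero => simpa using hx
    | succ k ih =>
      rw [pow_succ, pow_mul]
      exact hSp _ ih
  have hSmem : ∀ a ∈ G, ι a ∈ S := fun a ha => Submodule.subset_span ⟨⟨a, ha⟩, rfl⟩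
  have hSeq : S = LinearMap.range (LinearMap.baseChange K G.toSubmodule.subtype) := by
    apply le_antisymm
    · refine Submodule.span_le.mpr ?_
      rintro _ ⟨x, rfl⟩
      exact ⟨(1 : K) ⊗ₜ[F] x, by simp [hι]⟩
    · rintro _ ⟨z, rfl⟩
      induction z using TensorProduct.induction_on with
      | zero => simp
      | tmul k x =>
        rw [LinearMap.baseChange_tmul]
        have h1 : (k ⊗ₜ[F] (G.toSubmodule.subtype x) : K ⊗[F] A) = k • ι (x : A) := by
          have h2 : k • ((1 : K) ⊗ₜ[F] (x : A)) = k ⊗ₜ[F] (x : A) := by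
            rw [TensorProduct.smul_tmul', smul_eq_mul, mul_one]
          exact h2.symm
        rw [h1]
        exact Submodule.smul_mem _ _ (hSmem _ x.2)
      | add x y hx hy =>
        rw [map_add]
        exact Submodule.add_mem _ hx hy
  have hSfin : FiniteDimensional K S := by
    rw [hSeq]
    infer_instance
  have hSdim : finrank K S ≤ finrank F G := by
    rw [hSeq]
    refine (LinearMap.finrank_range_le _).trans ?_
    rw [Module.finrank_baseChange]
    exact le_rfl
  -- the torus
  set m := finrank F T with hm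
  set tb := Module.finBasis F T with htb
  have htli : LinearIndependent F (fun i => ((tb i : T) : A)) :=
    tb.linearIndependent.map' T.subtype (Submodule.ker_subtype _)
  have hTpk : ∀ x ∈ T, ∀ k : ℕ, x ^ p ^ k ∈ T := by
    intro x hx k
    induction k with
    | zero => simpa using hx
    | succ k ih =>
      rw [pow_succ, pow_mul]
      exact hTp _ ih
  have htk : ∀ k : ℕ, LinearIndependent F
      (fun i => (⟨((tb i : T) : A) ^ p ^ k, hTpk _ (tb i).2 k⟩ : T)) := by
    intro k
    apply LinearIndependent.of_comp T.subtype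
    exact frob_indep p hA (fun i => hTG (tb i).2) (fun i j => hTc _ (tb i).2 _ (tb j).2) htli k
  set e : Fin m → Module.Basis (Fin m) K (K ⊗[F] T) := fun j =>
    (basisOfLinearIndependentOfCardEqFinrank' _ (htk (j : ℕ)) (by simp)).baseChange K with he
  have heap : ∀ j i, e j i = (1 : K) ⊗ₜ[F] (⟨((tb i : T) : A) ^ p ^ (j : ℕ),
      hTpk _ (tb i).2 j⟩ : T) := by
    intro j i
    rw [he]
    simp
  obtain ⟨k, hk⟩ := exists_indep_pow hp.out.two_le e
  have hinjT : Function.Injective (LinearMap.baseChange K T.subtype) := by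
    rw [LinearMap.baseChange_eq_ltensor]
    exact Module.Flat.lTensor_preserves_injective_linearMap _ T.subtype_injective
  have hk2 := hk.map' (LinearMap.baseChange K T.subtype) (LinearMap.ker_eq_bot.mpr hinjT)
  set X1 : K ⊗[F] A := ∑ i, k i • ι ((tb i : T) : A) with hX1
  have hX1p : ∀ j : ℕ, X1 ^ p ^ j = ∑ i, k i ^ p ^ j • ι (((tb i : T) : A) ^ p ^ j) := by
    intro j
    have h1 := sum_pow_comm p Finset.univ (fun i => k i • ι ((tb i : T) : A))
      (fun i l => ((show Commute (ι ((tb i : T) : A)) (ι ((tb l : T) : A)) by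
        have := hTc _ (tb i).2 _ (tb l).2
        change ι _ * ι _ = ι _ * ι _
        rw [hιmul, hιmul, this.eq]).smul_left _).smul_right _) j
    rw [hX1, h1]
    refine Finset.sum_congr rfl fun i _ => ?_
    rw [smul_pow, hιpow]
  have hX1li : LinearIndependent K (fun j : Fin m => X1 ^ p ^ (j : ℕ)) := by
    have h1 : (fun j : Fin m => X1 ^ p ^ (j : ℕ)) = (LinearMap.baseChange K T.subtype) ∘
        (fun j : Fin m => ∑ i : Fin m, k i ^ p ^ (j : ℕ) • e j i) := by
      funext j
      rw [hX1p, Function.comp, map_sum]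
      refine Finset.sum_congr rfl fun i _ => ?_
      rw [map_smul, heap, LinearMap.baseChange_tmul]
      rfl
    rw [h1]
    exact hk2
  have hX1S : X1 ∈ S := Submodule.sum_mem _ fun i _ =>
    Submodule.smul_mem _ _ (hSmem _ (hTG (tb i).2))
  -- the range of `ad x0`
  set b := finrank F (LinearMap.range (LieAlgebra.ad F G x0)) with hb
  set rb := Module.finBasis F (LinearMap.range (LieAlgebra.ad F G x0)) with hrb
  have hY : ∀ i, ∃ y : G, ⁅x0, y⁆ = (rb i : G) := fun i => (rb i).2
  choose Y hYr using hY
  have hrli : LinearIndependent F (fun i => (((rb i : LinearMap.range (LieAlgebra.ad F G x0)) : G)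
      : A)) := by
    have h1 := rb.linearIndependent.map' (LinearMap.range (LieAlgebra.ad F G x0)).subtype
      (Submodule.ker_subtype _)
    exact h1.map' G.toSubmodule.subtype (Submodule.ker_subtype _)
  have hrli2 : LinearIndependent K (fun i => ι (x0 : A) * ι (Y i : A) - ι (Y i : A) * ι (x0 : A)) := by
    have h1 := Module.Flat.linearIndependent_one_tmul (S := K) hrli
    have h2 : (fun i => ι (x0 : A) * ι (Y i : A) - ι (Y i : A) * ι (x0 : A)) =
        fun i => (1 : K) ⊗ₜ[F] (((rb i : LinearMap.range (LieAlgebra.ad F G x0)) : G) : A) := by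
      funext i
      rw [hιmul, hιmul, hιsub, ← hYr i]
      rfl
    rw [h2]
    exact h1
  -- the line
  set X : K → K ⊗[F] A := fun t => ι (x0 : A) + t • (X1 - ι (x0 : A)) with hX
  have hXp : X ∈ polyFun K (K ⊗[F] A) := by
    have h1 := polyFun_const (K := K) (ι (x0 : A))
    have h2 := polyFun_line (K := K) (X1 - ι (x0 : A))
    exact Submodule.add_mem _ h1 h2
  have hX0 : X 0 = ι (x0 : A) := by simp [hX]
  have hX1' : X 1 = X1 := by simp [hX]
  have hXS : ∀ t, X t ∈ S := fun t => Submodule.add_mem _ (hSmem _ x0.2)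
    (Submodule.smul_mem _ _ (Submodule.sub_mem _ hX1S (hSmem _ x0.2)))
  obtain ⟨Q1, hQ1, hQ1'⟩ := openness (K := K)
    (fun i => (X * (fun _ => ι (Y i : A)) - (fun _ => ι (Y i : A)) * X : K → K ⊗[F] A))
    (fun i => Submodule.sub_mem _ (polyFun_mul hXp (polyFun_const _))
      (polyFun_mul (polyFun_const _) hXp)) 0 (by
      have : (fun i => (X * (fun _ => ι (Y i : A)) - (fun _ => ι (Y i : A)) * X : K → K ⊗[F] A) 0) =
          fun i => ι (x0 : A) * ι (Y i : A) - ι (Y i : A) * ι (x0 : A) := by
        funext i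
        simp only [Pi.sub_apply, Pi.mul_apply, hX0]
      rw [this]
      exact hrli2)
  obtain ⟨Q2, hQ2, hQ2'⟩ := openness (K := K)
    (fun j : Fin m => (X ^ p ^ (j : ℕ) : K → K ⊗[F] A))
    (fun j => polyFun_pow hXp _) 1 (by
      have : (fun j : Fin m => (X ^ p ^ (j : ℕ) : K → K ⊗[F] A) 1) = fun j : Fin m => X1 ^ p ^ (j : ℕ) := by
        funext j
        simp only [Pi.pow_apply, hX1']
      rw [this]
      exact hX1li)
  have hQ10 : Q1 ≠ 0 := by
    rintro rfl
    exact hQ1 (by simp)
  have hQ20 : Q2 ≠ 0 := by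
    rintro rfl
    exact hQ2 (by simp)
  obtain ⟨t, ht⟩ := exists_eval_ne (mul_ne_zero hQ10 hQ20)
  rw [Polynomial.eval_mul] at ht
  have ht1 := hQ1' t (left_ne_zero_of_mul ht)
  have ht2 := hQ2' t (right_ne_zero_of_mul ht)
  have hfinal := rank_le S hSc (X t) (hXS t) (fun i => ι (Y i : A)) (fun i => hSmem _ (Y i).2)
    (fun j : Fin m => (X t) ^ p ^ (j : ℕ)) (fun j => hSp' _ (hXS t) _)
    (fun j => Commute.self_pow _ _) ht1 ht2
  exact hfinal.trans hSdim

theorem key_le (p : ℕ) [hp : Fact p.Prime] [CharP F p] [PerfectRing F p] {G : LieSubalgebra F A}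
    [FiniteDimensional F G] (hP : PClosed p G) (hA : Aniso G) {T : Submodule F A}
    (hTG : T ≤ G.toSubmodule) (hTp : ∀ x ∈ T, x ^ p ∈ T) (hTc : ∀ x ∈ T, ∀ y ∈ T, Commute x y)
    (x0 : G) :
    finrank F T + finrank F (LinearMap.range (LieAlgebra.ad F G x0)) ≤ finrank F G :=
  key_le_aux (AlgebraicClosure F) p hP hA hTG hTp hTc x0

end Pool.Agent.MP9083
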