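import Mathlib
import Pool.Agent.Lib.MP_9083e4_al.Gen

/-!
# MP_9083e4_al: anisotropic `p`-closed algebras over perfect `C1` fields are commutative
-/

namespace Pool.Agent.MP9083

open Module

attribute [local instance 100] LieRing.ofAssociativeRing

/-- every form of degree `0 < d < n` in `n` variables has a nontrivial zero -/
def IsC1 (F : Type*) [Field F] : Prop :=
  ∀ n d : ℕ, 0 < d → d < n → ∀ f : MvPolynomial (Fin n) F, f.IsHomogeneous d →
    ∃ x : Fin n → F, x ≠ 0 ∧ MvPolynomial.eval x f = 0

/-- Chevalley -/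
theorem isC1_of_finite (F : Type*) [Field F] [Finite F] : IsC1 F := by
  classical
  intro n d hd hdn f hf
  have := Fintype.ofFinite F
  obtain ⟨p, hp⟩ := CharP.exists F
  have hpp : Fact p.Prime := ⟨CharP.char_is_prime F p⟩
  have hdeg : f.totalDegree < Fintype.card (Fin n) := by
    rw [Fintype.card_fin]
    exact lt_of_le_of_lt hf.totalDegree_le hdn
  have h1 := char_dvd_card_solutions p hdeg
  have h0 : MvPolynomial.eval (0 : Fin n → F) f = 0 := by
    by_contra hne
    have h2 := hf.coeff_eq_zero (d := (0 : Fin n →₀ ℕ)) (by simpa using hd.ne)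
    rw [← MvPolynomial.constantCoeff_eq] at h2
    rw [MvPolynomial.eval_zero] at hne
    exact hne h2
  by_contra hno
  push Not at hno
  have h3 : Fintype.card { x : Fin n → F // MvPolynomial.eval x f = 0 } = 1 := by
    rw [Fintype.card_eq_one_iff]
    refine ⟨⟨0, h0⟩, ?_⟩
    rintro ⟨x, hx⟩
    by_contra hx0
    exact hno x (fun h => hx0 (Subtype.ext h)) hx
  rw [h3] at h1
  exact hpp.out.one_lt.ne' (Nat.dvd_one.mp h1)

universe u v

variable {F : Type v} [Field F]

/-- the centralizer of an element -/
def cent {A : Type*} [Ring A] [Algebra F A] (G : LieSubalgebra F A) (x : A) : LieSubalgebra F A where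
  carrier := {a | a ∈ G ∧ Commute x a}
  add_mem' := fun {a b} ha hb => ⟨G.add_mem ha.1 hb.1, ha.2.add_right hb.2⟩
  zero_mem' := ⟨G.zero_mem, Commute.zero_right x⟩
  smul_mem' := fun c a ha => ⟨G.smul_mem c ha.1, ha.2.smul_right c⟩
  lie_mem' := fun {a b} ha hb => ⟨G.lie_mem ha.1 hb.1, by
    change Commute x (a * b - b * a)
    exact (ha.2.mul_right hb.2).sub_right (hb.2.mul_right ha.2)⟩

theorem mem_cent {A : Type*} [Ring A] [Algebra F A] {G : LieSubalgebra F A} {x a : A} :
    a ∈ cent G x ↔ a ∈ G ∧ Commute x a := Iff.rfl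

theorem comm_of_C1 (p : ℕ) [hp : Fact p.Prime] [CharP F p] [PerfectRing F p] (hC : IsC1 F) :
    ∀ (n : ℕ) (A : Type u) [Ring A] [Algebra F A] (G : LieSubalgebra F A)
      [FiniteDimensional F G], finrank F G = n → PClosed p G → Aniso G → ∀ x y : G, ⁅x, y⁆ = 0 := by
  classical
  intro n
  induction n using Nat.strong_induction_on with
  | _ n ih =>
  intro A _ _ G _ hn hP hA
  by_contra hno
  push Not at hno
  obtain ⟨a, b, hab⟩ := hno
  set φ : G →ₗ[F] Module.End F G := (LieAlgebra.ad F G).toLinearMap with hφ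
  have hφa : ∀ x y : G, φ x y = ⁅x, y⁆ := fun x y => rfl
  -- trivial center
  have hcenter : ∀ z : G, z ≠ 0 → ∃ y : G, ⁅z, y⁆ ≠ 0 := by
    intro z hz
    by_contra hno
    push Not at hno
    have h1 : finrank F (adRange G) < n := by
      have h2 := LinearMap.finrank_range_add_finrank_ker φ
      have h3 : 0 < finrank F (LinearMap.ker φ) := by
        rw [Module.finrank_pos_iff]
        refine ⟨⟨⟨z, ?_⟩, 0, ?_⟩⟩
        · rw [LinearMap.mem_ker]
          exact LinearMap.ext fun y => hno y
        · intro h4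
          exact hz (congrArg Subtype.val h4)
      have h4 : finrank F (adRange G) = finrank F (LinearMap.range φ) := rfl
      omega
    have hfd : FiniteDimensional F (adRange G) :=
      inferInstanceAs (FiniteDimensional F (LinearMap.range φ))
    have h2 := ih _ h1 (Module.End F G) (adRange G) rfl (pclosed_adRange p hP)
      (aniso_adRange p hP hA)
    apply hab
    refine lie_eq_zero_of_pow' p hP hA a b 2 ?_
    have h3 := h2 ⟨LieAlgebra.ad F G a, ⟨a, rfl⟩⟩ ⟨LieAlgebra.ad F G b, ⟨b, rfl⟩⟩
    have h4 : ⁅LieAlgebra.ad F G a, LieAlgebra.ad F G b⁆ = 0 := congrArg Subtype.val h3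
    rw [← LieHom.map_lie] at h4
    have h5 : ⁅⁅a, b⁆, a⁆ = 0 := LinearMap.congr_fun h4 a
    rw [pow_two, Module.End.mul_apply]
    change ⁅a, ⁅a, b⁆⁆ = 0
    rw [← lie_skew, h5, neg_zero]
  -- centralizers
  have hker : ∀ x : G, finrank F (LinearMap.ker (φ x)) = finrank F (cent G (x : A)).toSubmodule := by
    intro x
    refine LinearEquiv.finrank_eq
      { toFun := fun y => ⟨((y : G) : A), ?_⟩
        invFun := fun y => ⟨⟨(y : A), ?_⟩, ?_⟩
        map_add' := fun _ _ => rfl
        map_smul' := fun _ _ => rfl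
        left_inv := fun _ => rfl
        right_inv := fun _ => rfl }
    · refine ⟨(y : G).2, ?_⟩
      have h1 := congrArg (fun z : G => (z : A)) (LinearMap.mem_ker.mp y.2)
      exact sub_eq_zero.mp h1
    · exact y.2.1
    · rw [LinearMap.mem_ker]
      apply Subtype.ext
      exact sub_eq_zero.mpr y.2.2.eq
  have hcle : ∀ x : G, (cent G (x : A)).toSubmodule ≤ G.toSubmodule := fun x y hy => hy.1
  have hfG : FiniteDimensional F G.toSubmodule := ‹FiniteDimensional F G›
  have hle : ∀ x : G, x ≠ 0 → ∀ y : G,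
      finrank F (LinearMap.ker (φ x)) ≤ finrank F (LinearMap.ker (φ y)) := by
    intro x hx y
    obtain ⟨w, hw⟩ := hcenter x hx
    have hfc : FiniteDimensional F (cent G (x : A)).toSubmodule :=
      Submodule.finiteDimensional_of_le (hcle x)
    have hfc' : FiniteDimensional F (cent G (x : A)) := hfc
    have hcP : PClosed p (cent G (x : A)) := fun z hz => ⟨hP z hz.1, hz.2.pow_right p⟩
    have hcA : Aniso (cent G (x : A)) := fun z hz => hA z hz.1
    have hclt : finrank F (cent G (x : A)) < n := by
      rw [← hn]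
      have h1 : (cent G (x : A)).toSubmodule < G.toSubmodule := by
        refine lt_of_le_of_ne (hcle x) fun h2 => ?_
        have h3 : (w : A) ∈ (cent G (x : A)).toSubmodule := by
          rw [h2]
          exact w.2
        apply hw
        apply Subtype.ext
        exact sub_eq_zero.mpr h3.2.eq
      exact Submodule.finrank_lt_finrank_of_lt h1
    have hcc := ih _ hclt A (cent G (x : A)) rfl hcP hcA
    have hkl := key_le p hP hA (hcle x) (fun z hz => hcP z hz)
      (fun z hz z' hz' => by
        have h1 := congrArg (fun t : cent G (x : A) => (t : A)) (hcc ⟨z, hz⟩ ⟨z', hz'⟩)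
        exact sub_eq_zero.mp h1) y
    rw [← hker x] at hkl
    have h2 := LinearMap.finrank_range_add_finrank_ker (φ y)
    have h3 : finrank F (LinearMap.range (LieAlgebra.ad F G y)) =
      finrank F (LinearMap.range (φ y)) := rfl
    omega
  have ha0 : a ≠ 0 := by
    rintro rfl
    exact hab (zero_lie b)
  set r := finrank F (LinearMap.ker (φ a)) with hr
  have hreq : ∀ x : G, x ≠ 0 → finrank F (LinearMap.ker (φ x)) = r := fun x hx =>
    le_antisymm (hle x hx a) (hle a ha0 x)
  have hr0 : 0 < r := by
    rw [hr, Module.finrank_pos_iff]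
    refine ⟨⟨⟨a, ?_⟩, 0, ?_⟩⟩
    · rw [LinearMap.mem_ker, hφa, lie_self]
    · intro h4
      exact ha0 (congrArg Subtype.val h4)
  have hrn : r < n := by
    rw [← hn]
    apply Submodule.finrank_lt
    intro h1
    apply hab
    have h2 : b ∈ LinearMap.ker (φ a) := by
      rw [h1]
      exact Submodule.mem_top
    exact LinearMap.mem_ker.mp h2
  -- the form
  set bs := Module.finBasis F G with hbs
  set f : MvPolynomial (Fin (finrank F G)) F := (φ.polyCharpoly bs).coeff r with hf
  have hfh : f.IsHomogeneous (n - r) :=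
    φ.polyCharpoly_coeff_isHomogeneous bs r (n - r) (by omega)
  obtain ⟨v, hv0, hv⟩ := hC (finrank F G) (n - r) (by omega) (by omega) f hfh
  set x : G := bs.equivFun.symm v with hx
  have hxv : (bs.repr x : Fin (finrank F G) → F) = v := by
    rw [hx, ← Basis.equivFun_apply, LinearEquiv.apply_symm_apply]
  have hx0 : x ≠ 0 := by
    intro h1
    apply hv0
    rw [← hxv, h1]
    simp
  have hev := φ.polyCharpoly_coeff_eval bs x r
  rw [hxv, ← hf, hv] at hev
  have hmax : (φ x).maxGenEigenspace 0 = LinearMap.ker (φ x) := by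
    apply le_antisymm
    · intro y hy
      rw [Module.End.mem_maxGenEigenspace] at hy
      obtain ⟨k, hk⟩ := hy
      rw [zero_smul, sub_zero] at hk
      exact lie_eq_zero_of_pow' p hP hA x y k hk
    · intro y hy
      rw [Module.End.mem_maxGenEigenspace]
      refine ⟨1, ?_⟩
      rw [zero_smul, sub_zero, pow_one]
      exact hy
  have htr := LinearMap.finrank_maxGenEigenspace_zero_eq (φ x)
  rw [hmax, hreq x hx0] at htr
  have hne : (φ x).charpoly ≠ 0 := (φ x).charpoly_monic.ne_zero
  have h1 := Polynomial.trailingCoeff_nonzero_iff_nonzero.mpr hne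
  rw [Polynomial.trailingCoeff, ← htr] at h1
  exact h1 hev.symm

end Pool.Agent.MP9083
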