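import Mathlib
import Pool.Agent.Lib.MP_9083e4_al.Comm

/-!
# MP_9083e4_al: fields which are algebraic over the prime field are perfect `C1` fields
-/

namespace Pool.Agent.MP9083

open Module

theorem pow_iter {F : Type*} [Field F] {p : ℕ} {x : F} {n : ℕ} (h : x ^ p ^ n = x) (m : ℕ) :
    x ^ p ^ (n * m) = x := by
  induction m with
  | zero => simp
  | succ m ih =>
    rw [Nat.mul_succ, pow_add, pow_mul, ih, h]

theorem perfect_of_frob {F : Type*} [Field F] (p : ℕ) [hp : Fact p.Prime] [CharP F p]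
    (h : ∀ x : F, ∃ n : ℕ, 0 < n ∧ x ^ p ^ n = x) : PerfectRing F p := by
  apply PerfectRing.ofSurjective
  intro x
  obtain ⟨n, hn, hx⟩ := h x
  obtain ⟨m, rfl⟩ := Nat.exists_eq_succ_of_ne_zero hn.ne'
  refine ⟨x ^ p ^ m, ?_⟩
  rw [frobenius_def, ← pow_mul, ← pow_succ]
  exact hx

theorem isC1_of_frob {F : Type*} [Field F] (p : ℕ) [hp : Fact p.Prime] [CharP F p]
    (h : ∀ x : F, ∃ n : ℕ, 0 < n ∧ x ^ p ^ n = x) : IsC1 F := by
  classical
  intro n d hd hdn f hf
  choose r hr0 hr using h
  set N : ℕ := ∏ x ∈ f.coeffs, r x with hN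
  have hN0 : 0 < N := Finset.prod_pos fun x _ => hr0 x
  -- the finite subfield
  set K : Subfield F := RingHom.eqLocusField (iterateFrobenius F p N) (RingHom.id F) with hK
  have hKmem : ∀ x, x ∈ K ↔ x ^ p ^ N = x := by
    intro x
    change iterateFrobenius F p N x = RingHom.id F x ↔ _
    rw [iterateFrobenius_def, RingHom.id_apply]
  have hKfin : Finite K := by
    have hne : (Polynomial.X ^ p ^ N - Polynomial.X : Polynomial F) ≠ 0 := by
      refine (Polynomial.monic_X_pow_sub ?_).ne_zero
      rw [Polynomial.degree_X]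
      exact_mod_cast Nat.one_lt_pow hN0.ne' hp.out.one_lt
    have hfin := (Polynomial.X ^ p ^ N - Polynomial.X : Polynomial F).roots.toFinset.finite_toSet
    refine Set.Finite.subset hfin ?_
    intro x hx
    rw [Finset.mem_coe, Multiset.mem_toFinset, Polynomial.mem_roots hne, Polynomial.IsRoot.def,
      Polynomial.eval_sub, Polynomial.eval_pow, Polynomial.eval_X, sub_eq_zero]
    exact (hKmem x).mp hx
  have hcoef : ∀ x ∈ f.coeffs, x ∈ K := by
    intro x hx
    rw [hKmem]
    obtain ⟨m, hm⟩ : r x ∣ N := Finset.dvd_prod_of_mem r hx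
    rw [hm]
    exact pow_iter (hr x) m
  have hrange : f ∈ Set.range (MvPolynomial.map (σ := Fin n) K.subtype) := by
    rw [MvPolynomial.mem_range_map_iff_coeffs_subset]
    intro x hx
    exact ⟨⟨x, hcoef x hx⟩, rfl⟩
  obtain ⟨g, hgf⟩ := hrange
  have hinj : Function.Injective K.subtype := K.subtype.injective
  have hg : g.IsHomogeneous d := by
    intro e he
    apply hf
    rw [← hgf, MvPolynomial.coeff_map]
    intro h1
    exact he (hinj (by rw [h1, map_zero]))
  obtain ⟨x, hx0, hx⟩ := isC1_of_finite K n d hd hdn g hg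
  refine ⟨fun i => K.subtype (x i), ?_, ?_⟩
  · intro h0
    apply hx0
    funext i
    apply hinj
    have h1 := congrFun h0 i
    rw [Pi.zero_apply] at h1
    rw [h1, Pi.zero_apply, map_zero]
  · rw [← hgf, MvPolynomial.eval_map]
    have h1 := MvPolynomial.eval₂_comp_left K.subtype (RingHom.id K) x g
    rw [RingHom.comp_id] at h1
    have h2 : MvPolynomial.eval₂ (RingHom.id K) x g = MvPolynomial.eval x g := rfl
    rw [h2, hx, map_zero] at h1
    exact h1.symm

end Pool.Agent.MP9083
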