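import Mathlib
import Pool.Agent.Lib.MP_9083e4_al.Jac

/-!
# MP_9083e4_al: Hochschild's formula

`(a + b) ^ p = b ^ p + (ad b) ^ (p - 1) a + a ^ p` if `a` commutes with all `(ad b) ^ k a`, and
`D ^ (p - 1) (g ^ (p - 1) * D g) = g ^ (p - 1) * D ^ p g - (D g) ^ p` for a derivation `D`.
-/

namespace Pool.Agent.MP9083

open Polynomial Finset

section jac

variable {K : Type*} [Field K] {B : Type*} [Ring B] [Algebra K B]

theorem jac_comm (p : ℕ) [hp : Fact p.Prime] [CharP K p] {a b : B} (x : ℕ → B) (hx0 : x 0 = a)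
    (hx : ∀ k, x (k + 1) = b * x k - x k * b) (hc : ∀ k, a * x k = x k * a) :
    (a + b) ^ p = b ^ p + x (p - 1) + a ^ p := by
  rcases subsingleton_or_nontrivial B with hB | hB
  · exact Subsingleton.elim _ _
  have hchar : CharP (Module.End K B[X]) p :=
    charP_of_injective_algebraMap (algebraMap K (Module.End K B[X])).injective p
  have hcharB : CharP B p :=
    charP_of_injective_algebraMap (algebraMap K B).injective p
  set w : B[X] := C a * X + C b with hw
  have hdw : derivative w = C a := by
    rw [hw]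
    simp
  have hcomm : Commute (LinearMap.mulLeft K w) (LinearMap.mulRight K w) :=
    LinearMap.commute_mulLeft_right w w
  have h1 : derivative (w ^ p) =
      ((LinearMap.mulLeft K w - LinearMap.mulRight K w) ^ (p - 1)) (C a) := by
    rw [sub_pow_pred p hcomm, derivative_pow_nc, LinearMap.sum_apply, hdw]
    refine sum_congr rfl fun k _ => ?_
    rw [LinearMap.pow_mulLeft, LinearMap.pow_mulRight, Module.End.mul_apply,
      LinearMap.mulLeft_apply, LinearMap.mulRight_apply, mul_assoc]
  have h2 : ∀ m, ((LinearMap.mulLeft K w - LinearMap.mulRight K w) ^ m) (C a) = C (x m) := by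
    intro m
    induction m with
    | zero =>
      rw [pow_zero, hx0]
      rfl
    | succ m ih =>
      rw [pow_succ', Module.End.mul_apply, ih, LinearMap.sub_apply, LinearMap.mulLeft_apply,
        LinearMap.mulRight_apply, hw, add_mul, mul_add, mul_assoc, X_mul_C, ← mul_assoc, ← C_mul,
        ← mul_assoc, ← C_mul, ← C_mul, ← C_mul, hc m, hx m, C_sub]
      abel
  rw [h2] at h1
  have hcoef : ∀ n, 0 < n → n + 1 < p → (w ^ p).coeff (n + 1) = 0 := by
    intro n hn hnp
    have h3 : (derivative (w ^ p)).coeff n = 0 := by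
      rw [h1, coeff_C, if_neg hn.ne']
    rw [coeff_derivative] at h3
    have h4 : (w ^ p).coeff (n + 1) * ((n : B) + 1) =
        ((n + 1 : ℕ) : K) • (w ^ p).coeff (n + 1) := by
      rw [Algebra.smul_def, map_natCast, Nat.cast_add, Nat.cast_one]
      have : Commute ((w ^ p).coeff (n + 1)) (((n + 1 : ℕ) : B)) := Nat.commute_cast _ _
      rw [Nat.cast_add, Nat.cast_one] at this
      exact this.eq
    rw [h4] at h3
    have h5 : ((n + 1 : ℕ) : K) ≠ 0 := by
      intro h6
      rw [CharP.cast_eq_zero_iff K p] at h6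
      exact absurd (Nat.le_of_dvd (Nat.succ_pos n) h6) (by omega)
    exact (smul_eq_zero.mp h3).resolve_left h5
  have hcoef1 : (w ^ p).coeff 1 = x (p - 1) := by
    have h3 : (derivative (w ^ p)).coeff 0 = x (p - 1) := by
      rw [h1, coeff_C_zero]
    rw [coeff_derivative] at h3
    simpa using h3
  set ev : B[X] →+* B := eval₂RingHom' (RingHom.id B) 1 (fun a => Commute.one_right _) with hev
  have hevw : ev w = a + b := by
    rw [hw, hev]
    simp
  have hdeg : w.natDegree ≤ 1 := by
    rw [hw]
    exact natDegree_linear_le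
  have hdegp : (w ^ p).natDegree ≤ p := by
    have := natDegree_pow_le_of_le p hdeg
    rwa [mul_one] at this
  have h3 : (a + b) ^ p = ∑ i ∈ range (p + 1), (w ^ p).coeff i := by
    rw [← hevw, ← map_pow]
    conv_lhs => rw [(w ^ p).as_sum_range' (p + 1) (by omega)]
    rw [map_sum]
    refine sum_congr rfl fun i _ => ?_
    rw [hev]
    simp
  have h2p := hp.out.two_le
  obtain ⟨q, hq⟩ : ∃ q, p = q + 2 := ⟨p - 2, by omega⟩
  have h4 : (w ^ p).coeff 0 = b ^ p := by
    have h4 : constantCoeff (w ^ p) = (constantCoeff w) ^ p := map_pow _ _ _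
    rw [constantCoeff_apply, constantCoeff_apply] at h4
    rw [h4, hw]
    simp
  have h5 : (w ^ p).coeff p = a ^ p := by
    have h6 := coeff_pow_of_natDegree_le (m := p) hdeg
    rw [mul_one] at h6
    rw [h6, hw]
    simp
  rw [h3, sum_range_succ, h5]
  congr 1
  have h6 : ∑ i ∈ range p, (w ^ p).coeff i = ∑ i ∈ range (q + 2), (w ^ p).coeff i := by
    rw [← hq]
  rw [h6, sum_range_succ', sum_range_succ', zero_add, hcoef1, h4, add_comm (b ^ p),
    Finset.sum_eq_zero, zero_add]
  intro i hi
  have := mem_range.mp hi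
  exact hcoef (i + 1) (Nat.succ_pos i) (by omega)

end jac

section deriv

variable {K E : Type*} [Field K] [Field E] [Algebra K E]

/-- Hochschild's formula for a derivation of a field of characteristic `p` -/
theorem hochschild (p : ℕ) [hp : Fact p.Prime] [CharP K p] (D : Module.End K E)
    (hD : ∀ x y, D (x * y) = x * D y + y * D x) (g : E) (hg : g ≠ 0)
    (hgp : ∀ x, D (g ^ p * x) = g ^ p * D x) :
    (D ^ (p - 1)) (g ^ (p - 1) * D g) = g ^ (p - 1) * (D ^ p) g - (D g) ^ p := by
  have h0 : p - 1 + 1 = p := Nat.sub_add_cancel hp.out.one_le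
  have hD1 : D 1 = 0 := by
    have := hD 1 1
    simp only [mul_one, one_mul] at this
    simpa using this
  set w : E := g⁻¹ * D g with hw
  set a : Module.End K E := LinearMap.mulLeft K w with ha
  set x : ℕ → Module.End K E := fun k => LinearMap.mulLeft K ((D ^ k) w) with hx
  have hx0 : x 0 = a := by
    rw [hx]
    simp [ha]
  have hxs : ∀ k, x (k + 1) = D * x k - x k * D := by
    intro k
    refine LinearMap.ext fun y => ?_
    simp only [hx, LinearMap.sub_apply, Module.End.mul_apply, LinearMap.mulLeft_apply, hD,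
      pow_succ']
    ring
  have hxc : ∀ k, a * x k = x k * a := by
    intro k
    refine LinearMap.ext fun y => ?_
    simp only [ha, hx, Module.End.mul_apply, LinearMap.mulLeft_apply]
    ring
  have h1 := jac_comm (K := K) p x hx0 hxs hxc
  -- conjugation
  have h2 : ∀ (n : ℕ) (y : E), ((a + D) ^ n) y = g⁻¹ * (D ^ n) (g * y) := by
    intro n
    induction n with
    | zero =>
      intro y
      simp only [pow_zero, Module.End.one_apply]
      rw [← mul_assoc, inv_mul_cancel₀ hg, one_mul]
    | succ n ih =>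
      intro y
      rw [pow_succ, Module.End.mul_apply, ih, pow_succ, Module.End.mul_apply]
      congr 2
      rw [LinearMap.add_apply, ha, LinearMap.mulLeft_apply, hw, hD]
      field_simp
      ring
  have h3 := h2 p 1
  rw [h1, LinearMap.add_apply, LinearMap.add_apply, mul_one] at h3
  have h4 : (D ^ p) 1 = 0 := by
    rw [← h0, pow_succ, Module.End.mul_apply, hD1, map_zero]
  have h5 : (a ^ p) 1 = w ^ p := by
    rw [ha, LinearMap.pow_mulLeft, LinearMap.mulLeft_apply, mul_one]
  have h6 : (x (p - 1)) 1 = (D ^ (p - 1)) w := by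
    rw [hx]
    simp only [LinearMap.mulLeft_apply, mul_one]
  rw [h4, h5, h6, zero_add] at h3
  -- multiply by `g ^ p`
  have h7 : ∀ (n : ℕ) (y : E), (D ^ n) (g ^ p * y) = g ^ p * (D ^ n) y := by
    intro n
    induction n with
    | zero => intro y; rfl
    | succ n ih =>
      intro y
      rw [pow_succ, Module.End.mul_apply, hgp, ih, Module.End.mul_apply]
  have h8 : g ^ (p - 1) * D g = g ^ p * w := by
    rw [hw, ← h0, pow_succ, h0]
    field_simp
  have h9 : (D ^ (p - 1)) w = g⁻¹ * (D ^ p) g - w ^ p := by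
    rw [← h3]
    ring
  rw [h8, h7, h9, hw, mul_pow, mul_sub]
  congr 1
  · rw [← mul_assoc]
    congr 1
    nth_rewrite 1 [← h0]
    rw [pow_succ]
    field_simp
  · rw [← mul_assoc, ← mul_pow, mul_inv_cancel₀ hg, one_pow, one_mul]

end deriv

end Pool.Agent.MP9083
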