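import Mathlib
import Pool.Agent.Lib.MP_9083e4_al.Comm

/-!
# MP_9083e4_al: simple Lie algebras all of whose proper subalgebras are nilpotent

Over every field: no nonzero derivation is nilpotent (`der_not_nil`). In characteristic `p` the
derivation algebra is therefore an anisotropic `p`-closed algebra.
-/

namespace Pool.Agent.MP9083

open Module

attribute [local instance 100] LieRing.ofAssociativeRing

section linalg

variable {F V : Type*} [Field F] [AddCommGroup V] [Module F V] [FiniteDimensional F V]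

theorem exists_ker_not_nil (D A : Module.End F V) (hD : IsNilpotent D) (hA : ¬ IsNilpotent A)
    (hc : Commute D A) : ∃ v, D v = 0 ∧ ∀ k : ℕ, (A ^ k) v ≠ 0 := by
  classical
  set N := finrank F V with hN
  have hAN : A ^ N ≠ 0 := fun h => hA ⟨N, h⟩
  obtain ⟨u, hu⟩ : ∃ u, (A ^ N) u ≠ 0 := by
    by_contra hno
    push Not at hno
    exact hAN (LinearMap.ext hno)
  obtain ⟨n, hn⟩ := hD
  have hex : ∃ j, (D ^ j) ((A ^ N) u) = 0 := ⟨n, by rw [hn]; rfl⟩
  have hj : (D ^ (Nat.find hex)) ((A ^ N) u) = 0 := Nat.find_spec hex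
  have hj0 : Nat.find hex ≠ 0 := by
    intro h
    rw [h, pow_zero] at hj
    exact hu hj
  obtain ⟨i, hi⟩ := Nat.exists_eq_succ_of_ne_zero hj0
  refine ⟨(D ^ i) ((A ^ N) u), ?_, ?_⟩
  · rw [← Module.End.mul_apply, ← pow_succ', ← Nat.succ_eq_add_one, ← hi]
    exact hj
  · intro k hk
    have h1 : (D ^ i) ((A ^ N) u) ≠ 0 := Nat.find_min hex (by omega)
    apply h1
    have h2 : (D ^ i) ((A ^ N) u) = (A ^ N) ((D ^ i) u) := by
      have := (hc.pow_pow i N).eq
      exact LinearMap.congr_fun this u
    rw [h2] at hk ⊢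
    have h3 : (D ^ i) u ∈ LinearMap.ker (A ^ (N + k)) := by
      rw [LinearMap.mem_ker, add_comm, pow_add, Module.End.mul_apply]
      exact hk
    rw [Module.End.ker_pow_eq_ker_pow_finrank_of_le (Nat.le_add_right N k)] at h3
    exact h3

end linalg

variable {F L : Type*} [Field F] [LieRing L] [LieAlgebra F L]

variable (F L) in
/-- all proper subalgebras are nilpotent -/
def PropNil : Prop := ∀ S : LieSubalgebra F L, S ≠ ⊤ → LieRing.IsNilpotent S

/-- the derivations, as linear maps `D` with `[D, ad x] = ad (D x)` -/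
def IsDer (D : Module.End F L) : Prop := ∀ x y : L, D ⁅x, y⁆ = ⁅D x, y⁆ + ⁅x, D y⁆

theorem isDer_ad (x : L) : IsDer (LieAlgebra.ad F L x) := fun y z => by
  simp only [LieAlgebra.ad_apply]
  exact leibniz_lie x y z

theorem coe_ad_pow' (S : LieSubalgebra F L) (x y : S) (n : ℕ) :
    (((LieAlgebra.ad F S x) ^ n) y : L) = ((LieAlgebra.ad F L (x : L)) ^ n) (y : L) := by
  induction n with
  | zero => simp
  | succ n ih =>
    rw [pow_succ', pow_succ', Module.End.mul_apply, Module.End.mul_apply, ← ih]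
    rfl

/-- the kernel of a derivation -/
def kerAlg (D : Module.End F L) (hD : IsDer D) : LieSubalgebra F L where
  carrier := {x | D x = 0}
  add_mem' := fun {a b} ha hb => by
    change D (a + b) = 0
    rw [map_add, show D a = 0 from ha, show D b = 0 from hb, add_zero]
  zero_mem' := map_zero D
  smul_mem' := fun c a ha => by
    change D (c • a) = 0
    rw [map_smul, show D a = 0 from ha, smul_zero]
  lie_mem' := fun {a b} ha hb => by
    change D ⁅a, b⁆ = 0
    rw [hD, show D a = 0 from ha, show D b = 0 from hb, zero_lie, lie_zero, add_zero]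

variable [FiniteDimensional F L]

theorem exists_pow_eq_zero {S : LieSubalgebra F L} (hS : LieRing.IsNilpotent S) {x v : L}
    (hx : x ∈ S) (hv : v ∈ S) : ∃ k : ℕ, ((LieAlgebra.ad F L x) ^ k) v = 0 := by
  have : IsNoetherian F S := isNoetherian_submodule' S.toSubmodule
  obtain ⟨k, hk⟩ := (LieAlgebra.isNilpotent_iff_forall (R := F) (L := S)).mp hS ⟨x, hx⟩
  refine ⟨k, ?_⟩
  have h1 := coe_ad_pow' S ⟨x, hx⟩ ⟨v, hv⟩ k
  rw [hk] at h1
  exact h1.symm

/-- step (A0) -/
theorem adnil_of_ker (H : PropNil F L) {D : Module.End F L} (hD : IsDer D) (hnil : IsNilpotent D)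
    (h0 : D ≠ 0) {x : L} (hx : D x = 0) : IsNilpotent (LieAlgebra.ad F L x) := by
  by_contra hx'
  have hc : Commute D (LieAlgebra.ad F L x) := by
    refine LinearMap.ext fun y => ?_
    rw [Module.End.mul_apply, Module.End.mul_apply, LieAlgebra.ad_apply, LieAlgebra.ad_apply, hD,
      hx, zero_lie, zero_add]
  obtain ⟨v, hv, hvk⟩ := exists_ker_not_nil D _ hnil hx' hc
  have hne : kerAlg D hD ≠ ⊤ := by
    intro h
    apply h0
    refine LinearMap.ext fun y => ?_
    have : y ∈ kerAlg D hD := by
      rw [h]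
      exact LieSubalgebra.mem_top y
    exact this
  obtain ⟨k, hk⟩ := exists_pow_eq_zero (H _ hne) (show x ∈ kerAlg D hD from hx)
    (show v ∈ kerAlg D hD from hv)
  exact hvk k hk

omit [FiniteDimensional F L] in
theorem eq_zero_of_ad [LieAlgebra.IsSimple F L] {z : L} (hz : LieAlgebra.ad F L z = 0) :
    z = 0 := by
  have hz' : ∀ y : L, ⁅z, y⁆ = 0 := fun y => LinearMap.congr_fun hz y
  have hmem : z ∈ LieAlgebra.center F L := by
    rw [LieModule.mem_maxTrivSubmodule]
    intro y
    rw [← lie_skew, hz' y, neg_zero]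
  rcases LieAlgebra.IsSimple.eq_bot_or_eq_top (R := F) (LieAlgebra.center F L) with h | h
  · rw [h] at hmem
    exact (LieSubmodule.mem_bot z).mp hmem
  · exfalso
    apply LieAlgebra.IsSimple.non_abelian F (L := L)
    refine ⟨fun x y => ?_⟩
    have hy : y ∈ LieAlgebra.center F L := by
      rw [h]
      exact LieSubmodule.mem_top y
    exact (LieModule.mem_maxTrivSubmodule F L L y).mp hy x

/-- step (B) -/
theorem not_adnil [LieAlgebra.IsSimple F L] (H : PropNil F L) {x : L} (hx : x ≠ 0) :
    ¬ IsNilpotent (LieAlgebra.ad F L x) := by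
  intro hnil
  have hadx : LieAlgebra.ad F L x ≠ 0 := fun h => hx (eq_zero_of_ad h)
  set S := kerAlg (LieAlgebra.ad F L x) (isDer_ad x) with hS
  have hxS : x ∈ S := lie_self x
  have hSne : S ≠ ⊤ := by
    intro h
    apply hadx
    refine LinearMap.ext fun y => ?_
    have : y ∈ S := by
      rw [h]
      exact LieSubalgebra.mem_top y
    exact this
  obtain ⟨M, hM, hle⟩ := (eq_top_or_exists_le_coatom S).resolve_left hSne
  have hMn : LieRing.IsNilpotent M := H M hM.1
  have hxM : x ∈ M := hle hxS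
  have hMnt : Nontrivial M := ⟨⟨⟨x, hxM⟩, 0, fun h => hx (congrArg Subtype.val h)⟩⟩
  have hMn' : LieModule.IsNilpotent M M := hMn
  have hnt := LieModule.nontrivial_max_triv_of_isNilpotent F M M
  obtain ⟨z', hz'⟩ := exists_ne (0 : LieModule.maxTrivSubmodule F M M)
  set z : L := ((z' : M) : L) with hz
  have hz0 : z ≠ 0 := by
    intro h
    apply hz'
    apply Subtype.ext
    apply Subtype.ext
    exact h
  have hzc : ∀ m ∈ M, ⁅m, z⁆ = 0 := by
    intro m hm
    have h1 := (LieModule.mem_maxTrivSubmodule F M M (z' : M)).mp z'.2 ⟨m, hm⟩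
    exact congrArg Subtype.val h1
  have hznil : IsNilpotent (LieAlgebra.ad F L z) :=
    adnil_of_ker H (isDer_ad x) hnil hadx (hzc x hxM)
  have hadz : LieAlgebra.ad F L z ≠ 0 := fun h => hz0 (eq_zero_of_ad h)
  have hmnil : ∀ m ∈ M, IsNilpotent (LieAlgebra.ad F L m) := by
    intro m hm
    refine adnil_of_ker H (isDer_ad z) hznil hadz ?_
    rw [LieAlgebra.ad_apply, ← lie_skew, hzc m hm, neg_zero]
  -- Engel
  have hnorm : M.normalizer ≠ M := by
    rw [Ne, M.normalizer_eq_self_iff, ← Ne, ← LieSubmodule.nontrivial_iff_ne_bot F M]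
    have : Nontrivial (L ⧸ M.toLieSubmodule) := Submodule.Quotient.nontrivial_iff.2 <| by
      simpa using hM.1
    have : IsNoetherian F M := isNoetherian_submodule' M.toSubmodule
    have : LieModule.IsNilpotent M (L ⧸ M.toLieSubmodule) := by
      refine (LieModule.isNilpotent_iff_forall (R := F) (L := M)).mpr fun x => ?_
      have hx := hmnil x x.2
      apply Module.End.IsNilpotent.mapQ ?_ hx
      intro X HX
      simp only [LieSubalgebra.coe_toLieSubmodule, LieSubalgebra.mem_toSubmodule] at HX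
      simp only [LieSubalgebra.coe_toLieSubmodule, Submodule.mem_comap, LieAlgebra.ad_apply,
        LieSubalgebra.mem_toSubmodule]
      exact LieSubalgebra.lie_mem M x.prop HX
    exact LieModule.nontrivial_max_triv_of_isNilpotent F M (L ⧸ M.toLieSubmodule)
  have htop : M.normalizer = ⊤ := hM.2 _ (lt_of_le_of_ne M.le_normalizer hnorm.symm)
  obtain ⟨I, hI⟩ := (LieSubalgebra.exists_lieIdeal_coe_eq_iff F M).mpr (fun a b hb => by
    have ha : a ∈ M.normalizer := by
      rw [htop]
      exact LieSubalgebra.mem_top a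
    exact (M.mem_normalizer_iff a).mp ha b hb)
  have hmemI : ∀ a, a ∈ I ↔ a ∈ M := fun a => by
    rw [← hI]
    rfl
  rcases LieAlgebra.IsSimple.eq_bot_or_eq_top (R := F) I with h | h
  · apply hx
    have := (hmemI x).mpr hxM
    rw [h] at this
    exact (LieSubmodule.mem_bot x).mp this
  · apply hM.1
    rw [eq_top_iff]
    intro a _
    rw [← hmemI, h]
    exact LieSubmodule.mem_top a

/-- step (A): no nonzero derivation is nilpotent -/
theorem der_not_nil [LieAlgebra.IsSimple F L] (H : PropNil F L) {D : Module.End F L}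
    (hD : IsDer D) (hnil : IsNilpotent D) : D = 0 := by
  by_contra h0
  obtain ⟨x, hx0, hx⟩ : ∃ x : L, x ≠ 0 ∧ D x = 0 := by
    by_contra hno
    push Not at hno
    have hinj : Function.Injective D := by
      rw [← LinearMap.ker_eq_bot, LinearMap.ker_eq_bot']
      intro m hm
      by_contra hm0
      exact hno m hm0 hm
    obtain ⟨n, hn⟩ := hnil
    have h1 : Function.Injective (D ^ n) := by
      rw [Module.End.coe_pow]
      exact hinj.iterate n
    rw [hn] at h1
    have h2 : ∀ y : L, y = 0 := fun y => h1 rfl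
    exact h0 (LinearMap.ext fun y => by rw [h2 y, map_zero, map_zero])
  exact not_adnil H hx0 (adnil_of_ker H hD hnil h0 hx)

variable (F L) in
/-- the derivation algebra -/
def derAlg : LieSubalgebra F (Module.End F L) where
  carrier := {D | ∀ x : L, ⁅D, LieAlgebra.ad F L x⁆ = LieAlgebra.ad F L (D x)}
  add_mem' := fun {a b} ha hb x => by
    rw [add_lie, ha x, hb x, LinearMap.add_apply, map_add]
  zero_mem' := fun x => by
    rw [zero_lie, LinearMap.zero_apply, map_zero]
  smul_mem' := fun c a ha x => by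
    rw [smul_lie, ha x, LinearMap.smul_apply, map_smul]
  lie_mem' := fun {a b} ha hb x => by
    rw [lie_lie, hb x, ha x, ha, hb, ← map_sub]
    rfl

omit [FiniteDimensional F L] in
theorem mem_derAlg_iff {D : Module.End F L} : D ∈ derAlg F L ↔ IsDer D := by
  constructor
  · intro h x y
    have h1 := LinearMap.congr_fun (h x) y
    have h2 : D ⁅x, y⁆ - ⁅x, D y⁆ = ⁅D x, y⁆ := h1
    rw [← h2, sub_add_cancel]
  · intro h x
    refine LinearMap.ext fun y => ?_
    change D ⁅x, y⁆ - ⁅x, D y⁆ = ⁅D x, y⁆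
    rw [h, add_sub_cancel_right]

omit [FiniteDimensional F L] in
theorem ad_mem_derAlg (x : L) : LieAlgebra.ad F L x ∈ derAlg F L :=
  mem_derAlg_iff.mpr (isDer_ad x)

omit [FiniteDimensional F L] in
theorem ad_pow_ad {D : Module.End F L} (hD : D ∈ derAlg F L) (n : ℕ) (x : L) :
    ((LieAlgebra.ad F (Module.End F L) D) ^ n) (LieAlgebra.ad F L x) =
      LieAlgebra.ad F L ((D ^ n) x) := by
  induction n with
  | zero => simp
  | succ n ih =>
    rw [pow_succ', pow_succ', Module.End.mul_apply, Module.End.mul_apply, ih]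
    exact hD _

omit [FiniteDimensional F L] in
theorem pclosed_derAlg (p : ℕ) [Fact p.Prime] [CharP F p] : PClosed p (derAlg F L) := by
  intro D hD x
  rcases subsingleton_or_nontrivial (Module.End F L) with h | h
  · exact Subsingleton.elim _ _
  have h1 := ad_pow_char (F := F) p D 1
  rw [pow_one] at h1
  have h2 := ad_pow_ad hD p x
  rw [h1] at h2
  exact h2

theorem aniso_derAlg [LieAlgebra.IsSimple F L] (H : PropNil F L) : Aniso (derAlg F L) :=
  fun _ hD hnil => der_not_nil H (mem_derAlg_iff.mp hD) hnil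

/-- In characteristic `p` proper subalgebras are abelian. -/
theorem abelian_char_p (p : ℕ) [Fact p.Prime] [CharP F p] [PerfectRing F p]
    [LieAlgebra.IsSimple F L] (H : PropNil F L) {S : LieSubalgebra F L} (hS : S ≠ ⊤) {x y : L}
    (hx : x ∈ S) (hy : y ∈ S) : ⁅x, y⁆ = 0 := by
  obtain ⟨k, hk⟩ := exists_pow_eq_zero (H S hS) hx hy
  have h1 := ad_pow_ad (ad_mem_derAlg (F := F) x) k y
  rw [hk, map_zero] at h1
  have h2 := lie_eq_zero_of_pow p (pclosed_derAlg p) (aniso_derAlg H) (ad_mem_derAlg x) k h1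
  rw [← LieHom.map_lie] at h2
  exact eq_zero_of_ad h2

/-- There is no such algebra over a perfect `C1` field of characteristic `p`. -/
theorem false_of_C1 (p : ℕ) [Fact p.Prime] [CharP F p] [PerfectRing F p] (hC : IsC1 F)
    [LieAlgebra.IsSimple F L] (H : PropNil F L) : False := by
  apply LieAlgebra.IsSimple.non_abelian F (L := L)
  refine ⟨fun x y => ?_⟩
  have h1 := comm_of_C1 p hC _ (Module.End F L) (derAlg F L) rfl (pclosed_derAlg p)
    (aniso_derAlg H) ⟨_, ad_mem_derAlg x⟩ ⟨_, ad_mem_derAlg y⟩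
  have h2 : ⁅LieAlgebra.ad F L x, LieAlgebra.ad F L y⁆ = 0 := congrArg Subtype.val h1
  rw [← LieHom.map_lie] at h2
  exact eq_zero_of_ad h2

end Pool.Agent.MP9083
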