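import Mathlib
import Pool.Agent.Lib.MP_9083e4_al.Aniso
import Pool.Agent.Lib.MP_9083e4_al.JacC

/-!
# MP_9083e4_al: Poisson brackets on purely inseparable fields of degree `p ^ 2`

`E / F` is a field extension of degree `p ^ 2` in characteristic `p` with `x ^ p ∈ F` for all `x`,
`B` is a Poisson bracket on `E` over `F` with center `F` and `τ` is a linear form on `E` which
vanishes on all brackets with `τ 1 = 1`. Then a subspace of `E` which is closed under `B` and on
which `B` does not vanish contains the kernel of `τ`.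
-/

namespace Pool.Agent.MP9083

open Module

attribute [local instance 100] LieRing.ofAssociativeRing

/-- a Poisson bracket on the field `E` over `F` with a trace -/
structure Pois (F E : Type*) [Field F] [Field E] [Algebra F E] where
  B : E →ₗ[F] E →ₗ[F] E
  alt : ∀ x, B x x = 0
  leib : ∀ x y z, B x (y * z) = y * B x z + z * B x y
  jac : ∀ x y z, B x (B y z) = B (B x y) z + B y (B x z)
  cen : ∀ x, (∀ y, B x y = 0) → ∃ c : F, algebraMap F E c = x
  τ : E →ₗ[F] F
  τ_one : τ 1 = 1
  τ_B : ∀ x y, τ (B x y) = 0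

namespace Pois

variable {F E : Type*} [Field F] [Field E] [Algebra F E] (P : Pois F E)

theorem anti (x y : E) : P.B x y = - P.B y x := by
  have h := P.alt (x + y)
  rw [map_add, map_add, LinearMap.add_apply, LinearMap.add_apply, P.alt, P.alt] at h
  have h2 : P.B x y + P.B y x = 0 := by
    rw [← h]
    abel
  exact eq_neg_of_add_eq_zero_left h2

theorem B_one (x : E) : P.B x 1 = 0 := by
  have := P.leib x 1 1
  simp only [mul_one, one_mul] at this
  simpa using this

theorem B_algebraMap (x : E) (c : F) : P.B x (algebraMap F E c) = 0 := by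
  rw [Algebra.algebraMap_eq_smul_one, map_smul, B_one, smul_zero]

theorem B_algebraMap_left (x : E) (c : F) : P.B (algebraMap F E c) x = 0 := by
  rw [anti, B_algebraMap, neg_zero]

theorem leib_left (x y z : E) : P.B (x * y) z = x * P.B y z + y * P.B x z := by
  rw [anti, leib, anti P y z, anti P x z]
  ring

/-- the centralizer of `f` is a subfield -/
def C (f : E) : IntermediateField F E where
  carrier := {x | P.B f x = 0}
  mul_mem' := fun {a b} ha hb => by
    change P.B f (a * b) = 0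
    rw [P.leib, show P.B f a = 0 from ha, show P.B f b = 0 from hb, mul_zero, mul_zero, add_zero]
  one_mem' := P.B_one f
  add_mem' := fun {a b} ha hb => by
    change P.B f (a + b) = 0
    rw [map_add, show P.B f a = 0 from ha, show P.B f b = 0 from hb, add_zero]
  zero_mem' := map_zero _
  algebraMap_mem' := fun c => P.B_algebraMap f c
  inv_mem' := fun a ha => by
    rcases eq_or_ne a 0 with rfl | h
    · rw [inv_zero]
      exact map_zero _
    · have h1 := P.leib f a a⁻¹
      rw [mul_inv_cancel₀ h, P.B_one, show P.B f a = 0 from ha, mul_zero, add_zero] at h1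
      exact (mul_eq_zero.mp h1.symm).resolve_left h

theorem mem_C {f x : E} : x ∈ P.C f ↔ P.B f x = 0 := Iff.rfl

theorem self_mem (f : E) : f ∈ P.C f := P.alt f

theorem C_symm {f x : E} : x ∈ P.C f ↔ f ∈ P.C x := by
  rw [mem_C, mem_C, anti, neg_eq_zero]

theorem C_lin {f x : E} (hx : x ∈ P.C f) (y : E) : P.B f (x * y) = x * P.B f y := by
  rw [P.leib, P.mem_C.mp hx, mul_zero, add_zero]

section deg

variable {p : ℕ} [hp : Fact p.Prime] (hdim : finrank F E = p ^ 2)

include hdim

omit P in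
theorem finrank_of_ne {C : IntermediateField F E} (h1 : C ≠ ⊥) (h2 : C ≠ ⊤) :
    finrank F C = p ∧ finrank C E = p := by
  have h := Module.finrank_mul_finrank F C E
  rw [hdim] at h
  refine (hp.out.mul_eq_prime_sq_iff ?_ ?_).mp h
  · rwa [Ne, IntermediateField.finrank_eq_one_iff]
  · rwa [Ne, IntermediateField.finrank_eq_one_iff_eq_top]

theorem finrank_C {f g : E} (hfg : P.B f g ≠ 0) : finrank F (P.C f) = p ∧ finrank (P.C f) E = p := by
  refine finrank_of_ne hdim ?_ ?_
  · intro h
    have h1 := P.self_mem f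
    rw [h, IntermediateField.mem_bot] at h1
    obtain ⟨c, rfl⟩ := h1
    exact hfg (P.B_algebraMap_left g c)
  · intro h
    have h1 : g ∈ P.C f := by
      rw [h]
      exact IntermediateField.mem_top
    exact hfg h1

/-- a subspace over `C f` which is closed under multiplication and contains `1` and an element
outside of `C f` is everything -/
theorem eq_top_of_ring {f g : E} (hfg : P.B f g ≠ 0) (T : E → Prop) (hT1 : ∀ x ∈ P.C f, T x)
    (hTa : ∀ x y, T x → T y → T (x + y)) (hTm : ∀ x y, T x → T y → T (x * y)) {u : E}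
    (hu : T u) (huC : u ∉ P.C f) (x : E) : T x := by
  have hpr : (finrank (P.C f) E).Prime := by
    rw [(P.finrank_C hdim hfg).2]
    exact hp.out
  have hs := Subalgebra.isSimpleOrder_of_finrank_prime (P.C f) E hpr
  set A : Subalgebra (P.C f) E :=
    { carrier := {x | T x}
      mul_mem' := fun {a b} ha hb => hTm a b ha hb
      one_mem' := hT1 1 (P.C f).one_mem
      add_mem' := fun {a b} ha hb => hTa a b ha hb
      zero_mem' := hT1 0 (P.C f).zero_mem
      algebraMap_mem' := fun c => hT1 _ c.2 } with hA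
  rcases hs.eq_bot_or_eq_top A with h | h
  · exfalso
    have h1 : u ∈ A := hu
    rw [h, Algebra.mem_bot] at h1
    obtain ⟨c, rfl⟩ := h1
    exact huC c.2
  · have h1 : x ∈ A := by
      rw [h]
      exact Algebra.mem_top
    exact h1

/-- an element of `C f` outside of `F` generates `C f` -/
theorem eq_top_of_ring' {f g : E} (hfg : P.B f g ≠ 0) (T : E → Prop)
    (hT1 : ∀ c : F, T (algebraMap F E c))
    (hTa : ∀ x y, T x → T y → T (x + y)) (hTm : ∀ x y, T x → T y → T (x * y)) {u : E}
    (hu : T u) (huC : u ∈ P.C f) (huF : ∀ c : F, algebraMap F E c ≠ u) (x : E)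
    (hx : x ∈ P.C f) : T x := by
  have hpr : (finrank F (P.C f)).Prime := by
    rw [(P.finrank_C hdim hfg).1]
    exact hp.out
  have hs := Subalgebra.isSimpleOrder_of_finrank_prime F (P.C f) hpr
  set A : Subalgebra F (P.C f) :=
    { carrier := {x | T (x : E)}
      mul_mem' := fun {a b} ha hb => hTm a b ha hb
      one_mem' := by
        have := hT1 1
        rw [map_one] at this
        exact this
      add_mem' := fun {a b} ha hb => hTa a b ha hb
      zero_mem' := by
        have := hT1 0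
        rw [map_zero] at this
        exact this
      algebraMap_mem' := fun c => hT1 c } with hA
  rcases hs.eq_bot_or_eq_top A with h | h
  · exfalso
    have h1 : (⟨u, huC⟩ : P.C f) ∈ A := hu
    rw [h, Algebra.mem_bot] at h1
    obtain ⟨c, hc⟩ := h1
    exact huF c (congrArg Subtype.val hc)
  · have h1 : (⟨x, hx⟩ : P.C f) ∈ A := by
      rw [h]
      exact Algebra.mem_top
    exact h1

variable [CharP F p] (hpow : ∀ x : E, ∃ c : F, algebraMap F E c = x ^ p)

omit hdim in
theorem D_pow_leib (f x y : E) :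
    ((P.B f) ^ p) (x * y) = x * ((P.B f) ^ p) y + y * ((P.B f) ^ p) x := by
  set D : Module.End F E := P.B f with hD
  have hDl : ∀ x y, D (x * y) = x * D y + y * D x := P.leib f
  have h1 : ∀ n, ((LieAlgebra.ad F (Module.End F E) D) ^ n) (LinearMap.mulLeft F x) =
      LinearMap.mulLeft F ((D ^ n) x) := by
    intro n
    induction n with
    | zero => simp
    | succ n ih =>
      rw [pow_succ', Module.End.mul_apply, ih]
      refine LinearMap.ext fun z => ?_
      rw [LieAlgebra.ad_apply, Ring.lie_def]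
      simp only [LinearMap.sub_apply, LinearMap.mulLeft_apply, Module.End.mul_apply, pow_succ',
        hDl]
      ring
  have h2 := ad_pow_char (F := F) p D 1
  rw [pow_one] at h2
  have h3 := h1 p
  rw [h2] at h3
  have h4 := LinearMap.congr_fun h3 y
  rw [LieAlgebra.ad_apply, Ring.lie_def] at h4
  simp only [LinearMap.sub_apply, LinearMap.mulLeft_apply, Module.End.mul_apply] at h4
  rw [sub_eq_iff_eq_add] at h4
  rw [h4]
  ring

theorem exists_c {f g : E} (hfg : P.B f g ≠ 0) :
    ∃ c ∈ P.C f, ∀ h, ((P.B f) ^ p) h = c * P.B f h := by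
  set D : Module.End F E := P.B f with hD
  have hDl : ∀ x y, D (x * y) = x * D y + y * D x := P.leib f
  have h0 : p - 1 + 1 = p := Nat.sub_add_cancel hp.out.one_le
  set c : E := (D ^ p) g / D g with hc
  have hall : ∀ h, (D ^ p) h = c * D h := by
    refine fun h => P.eq_top_of_ring hdim hfg (fun h => (D ^ p) h = c * D h) ?_ ?_ ?_ (u := g) ?_
      hfg h
    · intro x hx
      have h1 : D x = 0 := hx
      change (D ^ p) x = c * D x
      rw [h1, mul_zero, ← h0, pow_succ, Module.End.mul_apply, h1, map_zero]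
    · intro x y hx hy
      rw [map_add, map_add, hx, hy, mul_add]
    · intro x y hx hy
      have h1 := P.D_pow_leib (p := p) f x y
      rw [← hD] at h1
      rw [h1, hx, hy, hDl]
      ring
    · rw [hc, div_mul_cancel₀ _ hfg]
  refine ⟨c, ?_, hall⟩
  have h1 : (D ^ p) (D g) = D ((D ^ p) g) := by
    rw [← Module.End.mul_apply, ← Module.End.mul_apply, ← pow_succ, ← pow_succ']
  rw [hall, hall, hDl] at h1
  have h2 : D g * D c = 0 := by
    have h3 : c * D (D g) = c * D (D g) + D g * D c := h1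
    exact (add_eq_left.mp h3.symm)
  exact (mul_eq_zero.mp h2).resolve_left hfg

end deg

/-- a bracket is never a nonzero element of the centralizer -/
theorem inj {f h : E} (h1 : P.B f (P.B f h) = 0) : P.B f h = 0 := by
  by_contra hne
  have h2 : (P.B f h)⁻¹ ∈ P.C f := (P.C f).inv_mem h1
  have h3 := P.C_lin h2 h
  rw [inv_mul_cancel₀ hne] at h3
  have h4 := P.τ_B f ((P.B f h)⁻¹ * h)
  rw [h3, P.τ_one] at h4
  exact one_ne_zero h4

theorem τ_inj {a : E} (h : ∀ x, P.τ (a * x) = 0) : a = 0 := by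
  by_contra hne
  have h1 := h a⁻¹
  rw [mul_inv_cancel₀ hne, P.τ_one] at h1
  exact one_ne_zero h1

section main

variable {p : ℕ} [hp : Fact p.Prime] [CharP F p] (hdim : finrank F E = p ^ 2)
  (hpow : ∀ x : E, ∃ c : F, algebraMap F E c = x ^ p)

include hdim hpow

theorem exists_c' {f g : E} (hfg : P.B f g ≠ 0) :
    ∃ c ∈ P.C f, c ≠ 0 ∧ (∀ h, ((P.B f) ^ p) h = c * P.B f h) ∧
      ∀ c0 : F, algebraMap F E c0 ≠ c := by
  obtain ⟨c, hcC, hc⟩ := P.exists_c hdim hfg
  have h0 : p - 1 + 1 = p := Nat.sub_add_cancel hp.out.one_le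
  have hp2 := hp.out.two_le
  set D : Module.End F E := P.B f with hD
  have hDl : ∀ x y, D (x * y) = x * D y + y * D x := P.leib f
  refine ⟨c, hcC, ?_, hc, ?_⟩
  · rintro rfl
    have h1 : ∀ n, (D ^ (n + 1)) g = 0 → D g = 0 := by
      intro n
      induction n with
      | zero =>
        intro h
        rwa [zero_add, pow_one] at h
      | succ n ih =>
        intro h
        apply ih
        rw [pow_succ', Module.End.mul_apply] at h ⊢
        rw [pow_succ', Module.End.mul_apply] at h
        exact P.inj h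
    apply hfg
    apply h1 (p - 1)
    rw [h0, hc, zero_mul]
  · rintro c0 rfl
    have hg0 : g ≠ 0 := by
      rintro rfl
      exact hfg (map_zero _)
    obtain ⟨c2, hc2⟩ := hpow g
    have hgp : ∀ x, D (g ^ p * x) = g ^ p * D x := by
      intro x
      rw [← hc2, ← Algebra.smul_def, ← Algebra.smul_def, map_smul]
    have h1 := hochschild p D hDl g hg0 hgp
    rw [hc] at h1
    obtain ⟨c1, hc1⟩ := hpow (D g)
    have h2 := congrArg P.τ h1
    have h3 : P.τ ((D ^ (p - 1)) (g ^ (p - 1) * D g)) = 0 := by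
      obtain ⟨q, hq⟩ : ∃ q, p - 1 = q + 1 := ⟨p - 2, by omega⟩
      rw [hq, pow_succ', Module.End.mul_apply]
      exact P.τ_B _ _
    have h4 : g ^ (p - 1) * D g = P.B (f * g ^ (p - 1)) g := by
      rw [P.leib_left]
      have h5 : P.B (g ^ (p - 1)) g = 0 := by
        rw [P.anti]
        have : g ^ (p - 1) ∈ P.C g := pow_mem (P.self_mem g) _
        rw [P.mem_C.mp this, neg_zero]
      rw [h5, mul_zero, zero_add]
    have h6 : g ^ (p - 1) * (algebraMap F E c0 * D g) = c0 • P.B (f * g ^ (p - 1)) g := by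
      rw [← h4, Algebra.smul_def]
      ring
    rw [h3, map_sub, h6, map_smul, P.τ_B, smul_zero, zero_sub, ← hc1,
      Algebra.algebraMap_eq_smul_one, map_smul, P.τ_one, smul_eq_mul, mul_one] at h2
    have h7 : c1 = 0 := neg_eq_zero.mp h2.symm
    rw [h7, map_zero] at hc1
    exact hfg (pow_eq_zero_iff (hp.out.ne_zero) |>.mp hc1.symm)

/-- step 5 -/
theorem range_le {f g : E} (hfg : P.B f g ≠ 0) (S : Submodule F E)
    (hS : ∀ x ∈ S, ∀ y ∈ S, P.B x y ∈ S) (hf : f ∈ S) (hg : g ∈ S) (x : E) : P.B f x ∈ S := by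
  obtain ⟨c, hcC, hc0, hc, hcF⟩ := P.exists_c' hdim hpow hfg
  have h0 : p - 1 + 1 = p := Nat.sub_add_cancel hp.out.one_le
  have hp2 := hp.out.two_le
  obtain ⟨q, hq⟩ : ∃ q, p - 1 = q + 1 := ⟨p - 2, by omega⟩
  set D : Module.End F E := P.B f with hD
  have hDl : ∀ x y, D (x * y) = x * D y + y * D x := P.leib f
  have hDS : ∀ y ∈ S, D y ∈ S := fun y hy => hS f hf y hy
  have hDnS : ∀ n, ∀ y ∈ S, (D ^ n) y ∈ S := by
    intro n
    induction n with
    | zero => intro y hy; exact hy
    | succ n ih =>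
      intro y hy
      rw [pow_succ, Module.End.mul_apply]
      exact ih _ (hDS y hy)
  have hDC : ∀ φ ∈ P.C f, ∀ y, D (φ * y) = φ * D y := fun φ hφ y => P.C_lin hφ y
  have hDnC : ∀ φ ∈ P.C f, ∀ n y, (D ^ n) (φ * y) = φ * (D ^ n) y := by
    intro φ hφ n
    induction n with
    | zero => intro y; rfl
    | succ n ih =>
      intro y
      rw [pow_succ, Module.End.mul_apply, hDC φ hφ, ih, Module.End.mul_apply]
  -- `D ^ (p - 1) = c` on the range
  have hDc : ∀ y, (D ^ (p - 1)) (D y) = c * D y := by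
    intro y
    rw [← hc, ← Module.End.mul_apply, ← pow_succ, h0]
  -- `C f * D S ⊆ D S`
  have hCS : ∀ φ ∈ P.C f, ∀ h ∈ S, ∃ h' ∈ S, φ * D h = D h' := by
    refine fun φ hφ => P.eq_top_of_ring' hdim hfg (fun φ => ∀ h ∈ S, ∃ h' ∈ S, φ * D h = D h')
      ?_ ?_ ?_ (u := c) ?_ hcC hcF φ hφ
    · intro c0 h hh
      refine ⟨c0 • h, S.smul_mem _ hh, ?_⟩
      rw [← Algebra.smul_def, map_smul]
    · intro a b ha hb h hh
      obtain ⟨h1, hh1, e1⟩ := ha h hh
      obtain ⟨h2, hh2, e2⟩ := hb h hh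
      exact ⟨h1 + h2, S.add_mem hh1 hh2, by rw [add_mul, e1, e2, map_add]⟩
    · intro a b ha hb h hh
      obtain ⟨h2, hh2, e2⟩ := hb h hh
      obtain ⟨h1, hh1, e1⟩ := ha h2 hh2
      exact ⟨h1, hh1, by rw [mul_assoc, e2, e1]⟩
    · intro h hh
      refine ⟨(D ^ (p - 1)) h, hDnS _ _ hh, ?_⟩
      rw [← hc, ← Module.End.mul_apply, ← pow_succ', h0]
  have hlift : ∀ h ∈ S, ∃ k ∈ S, D h = D (D k) := by
    intro h hh
    obtain ⟨h2, hh2, e2⟩ := hCS c⁻¹ ((P.C f).inv_mem hcC) h hh
    refine ⟨(D ^ q) h2, hDnS _ _ hh2, ?_⟩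
    have h3 := hDc h2
    rw [← e2, ← mul_assoc, mul_inv_cancel₀ hc0, one_mul, hDnC _ ((P.C f).inv_mem hcC), hDc,
      ← mul_assoc] at h3
    have h4 : (D ^ (p - 1)) (D h2) = D h := by
      rw [hDc, ← e2, ← mul_assoc, mul_inv_cancel₀ hc0, one_mul]
    rw [← h4, hq, pow_succ', Module.End.mul_apply]
    congr 1
    rw [← Module.End.mul_apply, ← Module.End.mul_apply, ← pow_succ, ← pow_succ']
  have hprod : ∀ a ∈ S, ∀ b ∈ S, ∃ φ ∈ P.C f, ∃ k ∈ S, D a * D b = φ + D k := by
    intro a ha b hb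
    obtain ⟨a', ha', ea⟩ := hCS f (P.self_mem f) a ha
    obtain ⟨b', hb', eb⟩ := hCS f (P.self_mem f) b hb
    have h1 : f * D a ∈ S := by
      rw [ea]
      exact hDS _ ha'
    have h2 : f * D b ∈ S := by
      rw [eb]
      exact hDS _ hb'
    have h3 : D (D a * D b) ∈ S := by
      have h4 : D (D a * D b) = P.B (f * D a) (D b) - P.B (D a) (f * D b) := by
        rw [P.leib_left, P.leib (D a) f (D b), P.anti (D a) f, hDl]
        change D a * D (D b) + D b * D (D a) = f * P.B (D a) (D b) + D a * D (D b) -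
          (f * P.B (D a) (D b) + D b * -D (D a))
        ring
      rw [h4]
      exact S.sub_mem (hS _ h1 _ (hDS _ hb)) (hS _ (hDS _ ha) _ h2)
    set y := D (D a * D b) with hy
    have h5 : c * y = D ((D ^ q) y) := by
      rw [hy, ← hDc, ← hy, hq, pow_succ', Module.End.mul_apply]
    obtain ⟨h6, hh6, e6⟩ := hCS c⁻¹ ((P.C f).inv_mem hcC) _ (hDnS q y h3)
    rw [← h5, ← mul_assoc, inv_mul_cancel₀ hc0, one_mul] at e6
    obtain ⟨k, hk, ek⟩ := hlift h6 hh6
    refine ⟨D a * D b - D k, ?_, k, hk, by ring⟩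
    rw [P.mem_C]
    change D (D a * D b - D k) = 0
    rw [map_sub, ← hy, e6, ek, sub_self]
  have hT : ∀ x, ∃ φ ∈ P.C f, ∃ a ∈ S, x = φ + D a := by
    refine fun x => P.eq_top_of_ring hdim hfg (fun x => ∃ φ ∈ P.C f, ∃ a ∈ S, x = φ + D a) ?_ ?_ ?_
      (u := D g) ?_ ?_ x
    · intro x hx
      exact ⟨x, hx, 0, S.zero_mem, by rw [map_zero, add_zero]⟩
    · rintro _ _ ⟨φ, hφ, a, ha, rfl⟩ ⟨ψ, hψ, b, hb, rfl⟩
      exact ⟨φ + ψ, (P.C f).add_mem hφ hψ, a + b, S.add_mem ha hb, by rw [map_add]; ring⟩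
    · rintro _ _ ⟨φ, hφ, a, ha, rfl⟩ ⟨ψ, hψ, b, hb, rfl⟩
      obtain ⟨b', hb', eb⟩ := hCS φ hφ b hb
      obtain ⟨a', ha', ea⟩ := hCS ψ hψ a ha
      obtain ⟨χ, hχ, k, hk, ek⟩ := hprod a ha b hb
      refine ⟨φ * ψ + χ, (P.C f).add_mem ((P.C f).mul_mem hφ hψ) hχ, b' + a' + k,
        S.add_mem (S.add_mem hb' ha') hk, ?_⟩
      rw [map_add, map_add, ← eb, ← ea, add_mul, mul_add, mul_add, ek]
      ring
    · exact ⟨0, (P.C f).zero_mem, g, hg, by rw [zero_add]⟩
    · intro h1
      exact hfg (P.inj h1)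
  obtain ⟨φ, hφ, a, ha, rfl⟩ := hT x
  change D (φ + D a) ∈ S
  have h7 : D φ = 0 := hφ
  rw [map_add, h7, zero_add]
  exact hDS _ (hDS _ ha)

/-- step 6 -/
theorem ker_le {f g : E} (hfg : P.B f g ≠ 0) (S : Submodule F E)
    (hS : ∀ x ∈ S, ∀ y ∈ S, P.B x y ∈ S) (hf : f ∈ S) (hg : g ∈ S) :
    LinearMap.ker P.τ ≤ S := by
  have hfin : FiniteDimensional F E := by
    apply Module.finite_of_finrank_pos
    rw [hdim]
    exact pow_pos hp.out.pos 2
  intro x hx
  by_contra hxS
  obtain ⟨l, hlx, hl⟩ := Submodule.exists_le_ker_of_notMem hxS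
  -- represent the functional
  set R : E →ₗ[F] Module.Dual F E :=
    (LinearMap.compRight F P.τ).comp (LinearMap.mul F E) with hR
  have hRa : ∀ a y, R a y = P.τ (a * y) := fun a y => rfl
  have hRinj : Function.Injective R := by
    rw [← LinearMap.ker_eq_bot, LinearMap.ker_eq_bot']
    intro a ha
    exact P.τ_inj fun y => by rw [← hRa, ha]; rfl
  have hRsurj : Function.Surjective R :=
    (LinearMap.injective_iff_surjective_of_finrank_eq_finrank
      (Subspace.dual_finrank_eq (K := F) (V := E)).symm).mp hRinj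
  obtain ⟨a, ha⟩ := hRsurj l
  have hla : ∀ y, l y = P.τ (a * y) := fun y => by rw [← ha, hRa]
  have hgf : P.B g f ≠ 0 := by
    rw [P.anti, neg_ne_zero]
    exact hfg
  have hkey : ∀ f' g' : E, P.B f' g' ≠ 0 → f' ∈ S → g' ∈ S → P.B f' a = 0 := by
    intro f' g' h1 hf' hg'
    apply P.τ_inj
    intro y
    have h2 := P.τ_B f' (a * y)
    rw [P.leib, map_add] at h2
    have h3 : l (P.B f' y) = 0 := hl (P.range_le hdim hpow h1 S hS hf' hg' y)
    rw [hla] at h3
    rw [h3, zero_add] at h2
    rw [mul_comm]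
    exact h2
  have haf : a ∈ P.C f := hkey f g hfg hf hg
  have hag : a ∈ P.C g := hkey g f hgf hg hf
  have hbot : P.C f ⊓ P.C g = ⊥ := by
    by_contra hne
    have htop : P.C f ⊓ P.C g ≠ ⊤ := by
      intro h1
      have h2 : g ∈ P.C f ⊓ P.C g := by
        rw [h1]
        exact IntermediateField.mem_top
      exact hfg h2.1
    have h1 := (finrank_of_ne hdim hne htop).1
    have h2 := (P.finrank_C hdim hfg).1
    have h3 : P.C f ⊓ P.C g = P.C f :=
      IntermediateField.eq_of_le_of_finrank_eq inf_le_left (h1.trans h2.symm)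
    have h4 : f ∈ P.C f ⊓ P.C g := by
      rw [h3]
      exact P.self_mem f
    exact hgf h4.2
  have hab : a ∈ P.C f ⊓ P.C g := ⟨haf, hag⟩
  rw [hbot, IntermediateField.mem_bot] at hab
  obtain ⟨a0, rfl⟩ := hab
  apply hlx
  rw [hla, ← Algebra.smul_def, map_smul, LinearMap.mem_ker.mp hx, smul_zero]

end main

end Pois

end Pool.Agent.MP9083
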