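import Mathlib
import Pool.Agent.Lib.MP_9083e4_al.Pois

/-!
# MP_9083e4_al: the simple Lie algebra of a Poisson field of degree `p ^ 2`
-/

namespace Pool.Agent.MP9083

open Module

namespace Pois

variable {F E : Type*} [Field F] [Field E] [Algebra F E]

/-- the kernel of the trace -/
def PL (P : Pois F E) : Type _ := LinearMap.ker P.τ

variable (P : Pois F E)

noncomputable instance : AddCommGroup P.PL := inferInstanceAs (AddCommGroup (LinearMap.ker P.τ))

noncomputable instance : Module F P.PL := inferInstanceAs (Module F (LinearMap.ker P.τ))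

/-- the inclusion -/
def incl : P.PL →ₗ[F] E := (LinearMap.ker P.τ).subtype

theorem incl_inj : Function.Injective P.incl := Subtype.val_injective

theorem incl_mem (x : P.PL) : P.τ (P.incl x) = 0 := x.2

noncomputable instance : LieRing P.PL where
  bracket x y := (⟨P.B (P.incl x) (P.incl y), P.τ_B _ _⟩ : LinearMap.ker P.τ)
  add_lie x y z := by
    apply P.incl_inj
    change P.B (P.incl (x + y)) (P.incl z) = P.B (P.incl x) (P.incl z) + P.B (P.incl y) (P.incl z)
    rw [map_add, map_add, LinearMap.add_apply]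
  lie_add x y z := by
    apply P.incl_inj
    change P.B (P.incl x) (P.incl (y + z)) = P.B (P.incl x) (P.incl y) + P.B (P.incl x) (P.incl z)
    rw [map_add, map_add]
  lie_self x := by
    apply P.incl_inj
    change P.B (P.incl x) (P.incl x) = 0
    exact P.alt _
  leibniz_lie x y z := by
    apply P.incl_inj
    change P.B (P.incl x) (P.B (P.incl y) (P.incl z)) =
      P.B (P.B (P.incl x) (P.incl y)) (P.incl z) + P.B (P.incl y) (P.B (P.incl x) (P.incl z))
    exact P.jac _ _ _

theorem incl_lie (x y : P.PL) : P.incl ⁅x, y⁆ = P.B (P.incl x) (P.incl y) := rfl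

noncomputable instance : LieAlgebra F P.PL where
  lie_smul c x y := by
    apply P.incl_inj
    rw [incl_lie, map_smul, map_smul, map_smul, incl_lie]

section main

variable {p : ℕ} [hp : Fact p.Prime] [CharP F p] (hdim : finrank F E = p ^ 2)
  (hpow : ∀ x : E, ∃ c : F, algebraMap F E c = x ^ p)

include hdim

omit [CharP F p] in
theorem finrank_PL : finrank F P.PL = p ^ 2 - 1 := by
  have hfin : FiniteDimensional F E := by
    apply Module.finite_of_finrank_pos
    rw [hdim]
    exact pow_pos hp.out.pos 2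
  have h1 := LinearMap.finrank_range_add_finrank_ker P.τ
  have h2 : LinearMap.range P.τ = ⊤ := by
    rw [LinearMap.range_eq_top]
    intro c
    exact ⟨c • 1, by rw [map_smul, P.τ_one, smul_eq_mul, mul_one]⟩
  rw [h2, finrank_top, Module.finrank_self, hdim] at h1
  have h3 : finrank F P.PL = finrank F (LinearMap.ker P.τ) := rfl
  omega

include hpow

theorem abelian {S : LieSubalgebra F P.PL} (hS : S ≠ ⊤) {x y : P.PL} (hx : x ∈ S) (hy : y ∈ S) :
    ⁅x, y⁆ = 0 := by
  by_contra hne
  have hB : P.B (P.incl x) (P.incl y) ≠ 0 := by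
    intro h
    apply hne
    apply P.incl_inj
    rw [incl_lie, h, map_zero]
  have h1 := P.ker_le hdim hpow hB (S.toSubmodule.map P.incl) (by
    rintro _ ⟨a, ha, rfl⟩ _ ⟨b, hb, rfl⟩
    exact ⟨⁅a, b⁆, S.lie_mem ha hb, rfl⟩) ⟨x, hx, rfl⟩ ⟨y, hy, rfl⟩
  apply hS
  rw [eq_top_iff]
  intro z _
  obtain ⟨w, hw, hwz⟩ := h1 (P.incl_mem z)
  have : w = z := P.incl_inj hwz
  rw [← this]
  exact hw

/-- every element of the field is a scalar plus an element of the kernel -/
theorem simple : LieAlgebra.IsSimple F P.PL := by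
  have hdec : ∀ y : E, ∃ z : P.PL, ∃ c : F, y = P.incl z + algebraMap F E c := by
    intro y
    refine ⟨(⟨y - algebraMap F E (P.τ y), ?_⟩ : LinearMap.ker P.τ), P.τ y, ?_⟩
    · rw [LinearMap.mem_ker, map_sub, Algebra.algebraMap_eq_smul_one, map_smul, P.τ_one,
        smul_eq_mul, mul_one, sub_self]
    · change y = y - algebraMap F E (P.τ y) + algebraMap F E (P.τ y)
      ring
  have hnz : ∀ x : P.PL, x ≠ 0 → ∃ y : P.PL, P.B (P.incl x) (P.incl y) ≠ 0 := by
    intro x hx
    by_contra hno
    push Not at hno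
    have h1 : ∀ y, P.B (P.incl x) y = 0 := by
      intro y
      obtain ⟨z, c, rfl⟩ := hdec y
      rw [map_add, hno, P.B_algebraMap, add_zero]
    obtain ⟨c, hc⟩ := P.cen _ h1
    have h2 := P.incl_mem x
    rw [← hc, Algebra.algebraMap_eq_smul_one, map_smul, P.τ_one, smul_eq_mul, mul_one] at h2
    apply hx
    apply P.incl_inj
    rw [← hc, h2, map_zero, map_zero]
  refine ⟨fun I => ?_, fun hA => ?_⟩
  · by_contra hno
    push Not at hno
    obtain ⟨hbot, htop⟩ := hno
    obtain ⟨x, hxI, hx0⟩ : ∃ x ∈ I, x ≠ 0 := by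
      by_contra hno
      push Not at hno
      exact hbot (by
        rw [LieSubmodule.eq_bot_iff]
        exact hno)
    have hne : LieIdeal.toLieSubalgebra F P.PL I ≠ ⊤ := by
      intro h
      apply htop
      rw [eq_top_iff]
      intro z _
      have : z ∈ LieIdeal.toLieSubalgebra F P.PL I := by
        rw [h]
        exact LieSubalgebra.mem_top z
      exact this
    obtain ⟨y, hy⟩ := hnz x hx0
    have hxy : ⁅x, y⁆ ∈ I := by
      rw [← lie_skew]
      exact I.neg_mem (I.lie_mem hxI)
    have h1 := P.abelian hdim hpow hne (show x ∈ LieIdeal.toLieSubalgebra F P.PL I from hxI)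
      (show ⁅x, y⁆ ∈ LieIdeal.toLieSubalgebra F P.PL I from hxy)
    have h2 := congrArg P.incl h1
    rw [incl_lie, incl_lie, map_zero] at h2
    exact hy (P.inj h2)
  · have hpos : 0 < finrank F P.PL := by
      rw [P.finrank_PL hdim]
      have h1 := hp.out.two_le
      have h2 : 2 ^ 2 ≤ p ^ 2 := Nat.pow_le_pow_left h1 2
      omega
    have hnt : Nontrivial P.PL := Module.nontrivial_of_finrank_pos hpos
    obtain ⟨x, hx⟩ := exists_ne (0 : P.PL)
    obtain ⟨y, hy⟩ := hnz x hx
    apply hy
    rw [← incl_lie, hA.trivial, map_zero]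

end main

end Pois

end Pool.Agent.MP9083
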