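import Mathlib
import Pool.Agent.Lib.MP_9083e4_al.PoisLie

/-!
# MP_9083e4_al: existence of the Poisson bracket

Every field extension `E / F` of degree `p ^ 2` with `x ^ p ∈ F` for all `x` carries a structure
`Pois F E`.
-/

namespace Pool.Agent.MP9083

open Module Polynomial

attribute [local instance 100] LieRing.ofAssociativeRing

/-- the toral derivation of a purely inseparable extension of degree `p` -/
theorem exists_der {K E : Type*} [Field K] [Field E] [Algebra K E] (p : ℕ) [hp : Fact p.Prime]
    [CharP K p] (hdim : finrank K E = p) (s : E) (hs : ∀ c : K, algebraMap K E c ≠ s) (c0 : K)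
    (hc0 : algebraMap K E c0 = s ^ p) : ∃ D : Derivation K E E, D s = s := by
  have hfin : FiniteDimensional K E := by
    apply Module.finite_of_finrank_pos
    rw [hdim]
    exact hp.out.pos
  have hso := Subalgebra.isSimpleOrder_of_finrank_prime K E (by rw [hdim]; exact hp.out)
  have htop : Algebra.adjoin K {s} = ⊤ := by
    rcases hso.eq_bot_or_eq_top (Algebra.adjoin K {s}) with h | h
    · exfalso
      have h1 : s ∈ Algebra.adjoin K {s} := Algebra.subset_adjoin rfl
      rw [h, Algebra.mem_bot] at h1
      obtain ⟨c, hc⟩ := h1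
      exact hs c hc
    · exact h
  have hsurj : Function.Surjective (aeval s : K[X] →ₐ[K] E) := by
    rw [← AlgHom.range_eq_top, ← Algebra.adjoin_singleton_eq_range_aeval]
    exact htop
  -- the minimal polynomial
  set m : K[X] := X ^ p - C c0 with hm
  have hmm : m.Monic := monic_X_pow_sub_C c0 hp.out.ne_zero
  have hmdeg : m.natDegree = p := natDegree_X_pow_sub_C
  have hmz : aeval s m = 0 := by
    rw [hm, map_sub, map_pow, aeval_X, aeval_C, hc0, sub_self]
  have hint : IsIntegral K s := ⟨m, hmm, hmz⟩
  have hmin : m = minpoly K s := by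
    apply eq_of_monic_of_dvd_of_natDegree_le (minpoly.monic hint) hmm (minpoly.dvd K s hmz)
    rw [hmdeg, ← IntermediateField.adjoin.finrank hint]
    have h1 : IntermediateField.adjoin K {s} = ⊤ := by
      rw [eq_top_iff]
      intro x _
      have h2 : x ∈ Algebra.adjoin K {s} := by
        rw [htop]
        exact Algebra.mem_top
      exact IntermediateField.algebra_adjoin_le_adjoin K {s} h2
    rw [h1, IntermediateField.finrank_top', hdim]
  set d : Derivation K K[X] K[X] := mkDerivation K (X : K[X]) with hd
  have hdX : d X = X := mkDerivation_X K X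
  have hdm : d m = 0 := by
    rw [hm, map_sub, Derivation.leibniz_pow, hdX]
    have h1 : d (C c0) = 0 := d.map_algebraMap c0
    rw [h1, sub_zero, ← Nat.cast_smul_eq_nsmul K[X], CharP.cast_eq_zero, zero_smul]
  have hker : ∀ q : K[X], (aeval s : K[X] →ₐ[K] E) q = 0 →
      (aeval s : K[X] →ₐ[K] E) (d q) = 0 := by
    intro q hq
    have h1 : m ∣ q := by
      rw [hmin]
      exact minpoly.dvd K s hq
    obtain ⟨r, rfl⟩ := h1
    rw [Derivation.leibniz, hdm, smul_zero, add_zero, smul_eq_mul, map_mul, hmz, zero_mul]
  refine ⟨Derivation.liftOfSurjective hsurj hker, ?_⟩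
  have h1 := Derivation.liftOfSurjective_apply hsurj hker X
  rw [hdX, aeval_X] at h1
  exact h1

section general

variable {F E : Type*} [Field F] [Field E] [Algebra F E]

theorem pow_leib {p : ℕ} [hp : Fact p.Prime] [CharP F p] (D : Module.End F E)
    (hDl : ∀ x y, D (x * y) = x * D y + y * D x) (x y : E) :
    (D ^ p) (x * y) = x * (D ^ p) y + y * (D ^ p) x := by
  have h1 : ∀ n, ((LieAlgebra.ad F (Module.End F E) D) ^ n) (LinearMap.mulLeft F x) =
      LinearMap.mulLeft F ((D ^ n) x) := by
    intro n
    induction n with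
    | zero => simp
    | succ n ih =>
      rw [pow_succ', Module.End.mul_apply, ih]
      refine LinearMap.ext fun z => ?_
      rw [LieAlgebra.ad_apply, Ring.lie_def]
      simp only [LinearMap.sub_apply, LinearMap.mulLeft_apply, Module.End.mul_apply, pow_succ',
        hDl]
      ring
  have h2 := ad_pow_char (F := F) p D 1
  rw [pow_one] at h2
  have h3 := h1 p
  rw [h2] at h3
  have h4 := LinearMap.congr_fun h3 y
  rw [LieAlgebra.ad_apply, Ring.lie_def] at h4
  simp only [LinearMap.sub_apply, LinearMap.mulLeft_apply, Module.End.mul_apply] at h4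
  rw [sub_eq_iff_eq_add] at h4
  rw [h4]
  ring

/-- the kernel of a derivation is a subfield -/
def kerF (D : E →ₗ[F] E) (hD : ∀ x y, D (x * y) = x * D y + y * D x) : IntermediateField F E where
  carrier := {x | D x = 0}
  mul_mem' := fun {a b} ha hb => by
    change D (a * b) = 0
    rw [hD, show D a = 0 from ha, show D b = 0 from hb, mul_zero, mul_zero, add_zero]
  one_mem' := by
    have := hD 1 1
    simp only [mul_one, one_mul] at this
    change D 1 = 0
    simpa using this
  add_mem' := fun {a b} ha hb => by
    change D (a + b) = 0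
    rw [map_add, show D a = 0 from ha, show D b = 0 from hb, add_zero]
  zero_mem' := map_zero _
  algebraMap_mem' := fun c => by
    have h1 : D 1 = 0 := by
      have := hD 1 1
      simp only [mul_one, one_mul] at this
      simpa using this
    change D (algebraMap F E c) = 0
    rw [Algebra.algebraMap_eq_smul_one, map_smul, h1, smul_zero]
  inv_mem' := fun a ha => by
    have h1 : D 1 = 0 := by
      have := hD 1 1
      simp only [mul_one, one_mul] at this
      simpa using this
    rcases eq_or_ne a 0 with rfl | h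
    · rw [inv_zero]
      exact map_zero _
    · have h2 := hD a a⁻¹
      rw [mul_inv_cancel₀ h, h1, show D a = 0 from ha, mul_zero, add_zero] at h2
      exact (mul_eq_zero.mp h2.symm).resolve_left h

theorem exists_pois (p : ℕ) [hp : Fact p.Prime] [CharP F p] (hdim : finrank F E = p ^ 2)
    (hpow : ∀ x : E, ∃ c : F, algebraMap F E c = x ^ p) : Nonempty (Pois F E) := by
  have hp2 := hp.out.two_le
  have h0 : p - 1 + 1 = p := Nat.sub_add_cancel hp.out.one_le
  have hfin : FiniteDimensional F E := by
    apply Module.finite_of_finrank_pos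
    rw [hdim]
    exact pow_pos hp.out.pos 2
  have hlt : p < p ^ 2 := by
    rw [pow_two]
    exact lt_mul_of_one_lt_left hp.out.pos hp.out.one_lt
  -- simple extensions have degree at most `p`
  have hle : ∀ x : E, IntermediateField.adjoin F {x} ≠ ⊤ := by
    intro x h
    obtain ⟨c, hc⟩ := hpow x
    have hmz : aeval x (X ^ p - C c : F[X]) = 0 := by
      rw [map_sub, map_pow, aeval_X, aeval_C, hc, sub_self]
    have hmm : (X ^ p - C c : F[X]).Monic := monic_X_pow_sub_C c hp.out.ne_zero
    have hint : IsIntegral F x := ⟨_, hmm, hmz⟩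
    have h1 := IntermediateField.adjoin.finrank hint
    rw [h, IntermediateField.finrank_top', hdim] at h1
    have h2 := natDegree_le_of_dvd (minpoly.dvd F x hmz) hmm.ne_zero
    rw [natDegree_X_pow_sub_C, ← h1] at h2
    omega
  have hbot : (⊥ : IntermediateField F E) ≠ ⊤ := by
    intro h
    rw [IntermediateField.bot_eq_top_iff_finrank_eq_one, hdim] at h
    have h3 := hp.out.one_lt
    omega
  obtain ⟨s, hs⟩ : ∃ s : E, s ∉ (⊥ : IntermediateField F E) := by
    by_contra hno
    push Not at hno
    exact hbot (eq_top_iff.mpr fun x _ => hno x)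
  set K1 := IntermediateField.adjoin F {s} with hK1
  have hsK1 : s ∈ K1 := IntermediateField.mem_adjoin_simple_self F s
  have hK1b : K1 ≠ ⊥ := fun h => hs (by rw [← h]; exact hsK1)
  obtain ⟨t, ht⟩ : ∃ t : E, t ∉ K1 := by
    by_contra hno
    push Not at hno
    exact hle s (eq_top_iff.mpr fun x _ => hno x)
  set K2 := IntermediateField.adjoin F {t} with hK2
  have htK2 : t ∈ K2 := IntermediateField.mem_adjoin_simple_self F t
  have hK2b : K2 ≠ ⊥ := fun h => ht ((bot_le : ⊥ ≤ K1) (by rw [← h]; exact htK2))
  have hd1 := Pois.finrank_of_ne hdim hK1b (hle s)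
  have hd2 := Pois.finrank_of_ne hdim hK2b (hle t)
  have hsK2 : s ∉ K2 := by
    intro h
    have h1 : K1 ≤ K2 := by
      rw [hK1, IntermediateField.adjoin_simple_le_iff]
      exact h
    have h2 := IntermediateField.eq_of_le_of_finrank_eq h1 (hd1.1.trans hd2.1.symm)
    exact ht (by rw [h2]; exact htK2)
  -- a subfield containing `s` and `t` is everything
  have hgen : ∀ I : IntermediateField F E, s ∈ I → t ∈ I → I = ⊤ := by
    intro I hsI htI
    by_contra hne
    have hb : I ≠ ⊥ := fun h => hs (by rw [← h]; exact hsI)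
    have h1 := Pois.finrank_of_ne hdim hb hne
    have h2 : K1 ≤ I := by
      rw [hK1, IntermediateField.adjoin_simple_le_iff]
      exact hsI
    have h3 := IntermediateField.eq_of_le_of_finrank_eq h2 (hd1.1.trans h1.1.symm)
    exact ht (by rw [h3]; exact htI)
  have hs0 : s ≠ 0 := fun h => hs (by rw [h]; exact zero_mem _)
  have ht0 : t ≠ 0 := fun h => ht (by rw [h]; exact zero_mem _)
  -- the derivations
  have hch1 : CharP K1 p := charP_of_injective_algebraMap (algebraMap F K1).injective p
  have hch2 : CharP K2 p := charP_of_injective_algebraMap (algebraMap F K2).injective p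
  obtain ⟨cs, hcs⟩ := hpow s
  obtain ⟨ct, hct⟩ := hpow t
  obtain ⟨P0, hP0⟩ := exists_der (K := K2) p hd2.2 s (fun c hc => hsK2 (by rw [← hc]; exact c.2))
    (algebraMap F K2 cs) (by rw [← hcs]; rfl)
  obtain ⟨Q0, hQ0⟩ := exists_der (K := K1) p hd1.2 t (fun c hc => ht (by rw [← hc]; exact c.2))
    (algebraMap F K1 ct) (by rw [← hct]; rfl)
  set P : Module.End F E := P0.toLinearMap.restrictScalars F with hP
  set Q : Module.End F E := Q0.toLinearMap.restrictScalars F with hQ
  have hPl : ∀ x y, P (x * y) = x * P y + y * P x := fun x y => P0.leibniz x y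
  have hQl : ∀ x y, Q (x * y) = x * Q y + y * Q x := fun x y => Q0.leibniz x y
  have hPs : P s = s := hP0
  have hQt : Q t = t := hQ0
  have hPt : P t = 0 := P0.map_algebraMap (⟨t, htK2⟩ : K2)
  have hQs : Q s = 0 := Q0.map_algebraMap (⟨s, hsK1⟩ : K1)
  -- equality of derivations
  have hext : ∀ D : Module.End F E, (∀ x y, D (x * y) = x * D y + y * D x) → D s = 0 →
      D t = 0 → D = 0 := by
    intro D hD h1 h2
    have h3 := hgen (kerF D hD) h1 h2
    refine LinearMap.ext fun x => ?_
    have h4 : x ∈ kerF D hD := by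
      rw [h3]
      exact IntermediateField.mem_top
    exact h4
  have hPQ : ∀ x, P (Q x) = Q (P x) := by
    have h1 := hext (P * Q - Q * P) (fun x y => by
      simp only [LinearMap.sub_apply, Module.End.mul_apply, hPl, hQl, map_add]
      ring) (by
      rw [LinearMap.sub_apply, Module.End.mul_apply, Module.End.mul_apply, hQs, hPs, hQs, map_zero,
        sub_zero]) (by
      rw [LinearMap.sub_apply, Module.End.mul_apply, Module.End.mul_apply, hQt, hPt, map_zero,
        sub_zero])
    intro x
    have h2 := LinearMap.congr_fun h1 x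
    exact sub_eq_zero.mp h2
  have hPp : P ^ p = P := by
    refine sub_eq_zero.mp (hext (P ^ p - P) (fun x y => ?_) ?_ ?_)
    · rw [LinearMap.sub_apply, pow_leib P hPl, hPl, LinearMap.sub_apply, LinearMap.sub_apply]
      ring
    · have h1 : ∀ n, (P ^ n) s = s := by
        intro n
        induction n with
        | zero => rfl
        | succ n ih => rw [pow_succ, Module.End.mul_apply, hPs, ih]
      rw [LinearMap.sub_apply, h1, hPs, sub_self]
    · rw [LinearMap.sub_apply, ← h0, pow_succ, Module.End.mul_apply, hPt, map_zero, sub_zero]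
  have hQp : Q ^ p = Q := by
    refine sub_eq_zero.mp (hext (Q ^ p - Q) (fun x y => ?_) ?_ ?_)
    · rw [LinearMap.sub_apply, pow_leib Q hQl, hQl, LinearMap.sub_apply, LinearMap.sub_apply]
      ring
    · rw [LinearMap.sub_apply, ← h0, pow_succ, Module.End.mul_apply, hQs, map_zero, sub_zero]
    · have h1 : ∀ n, (Q ^ n) t = t := by
        intro n
        induction n with
        | zero => rfl
        | succ n ih => rw [pow_succ, Module.End.mul_apply, hQt, ih]
      rw [LinearMap.sub_apply, h1, hQt, sub_self]
  -- the common kernel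
  have hker : ∀ x, P x = 0 → Q x = 0 → ∃ c : F, algebraMap F E c = x := by
    intro x hx1 hx2
    have hI : kerF P hPl ⊓ kerF Q hQl = ⊥ := by
      by_contra hne
      have htop : kerF P hPl ⊓ kerF Q hQl ≠ ⊤ := by
        intro h
        have h1 : s ∈ kerF P hPl ⊓ kerF Q hQl := by
          rw [h]
          exact IntermediateField.mem_top
        exact hs0 (hPs.symm.trans h1.1)
      have htop' : kerF P hPl ≠ ⊤ := by
        intro h
        have h1 : s ∈ kerF P hPl := by
          rw [h]
          exact IntermediateField.mem_top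
        exact hs0 (hPs.symm.trans h1)
      have hbot' : kerF P hPl ≠ ⊥ := by
        intro h
        have h1 : t ∈ kerF P hPl := hPt
        rw [h] at h1
        exact ht ((bot_le : ⊥ ≤ K1) h1)
      have h1 := Pois.finrank_of_ne hdim hne htop
      have h2 := Pois.finrank_of_ne hdim hbot' htop'
      have h3 : kerF P hPl ⊓ kerF Q hQl = kerF P hPl :=
        IntermediateField.eq_of_le_of_finrank_eq inf_le_left (h1.1.trans h2.1.symm)
      have h4 : t ∈ kerF P hPl ⊓ kerF Q hQl := by
        rw [h3]
        exact hPt
      exact ht0 (hQt.symm.trans h4.2)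
    have h5 : x ∈ kerF P hPl ⊓ kerF Q hQl := ⟨hx1, hx2⟩
    rw [hI, IntermediateField.mem_bot] at h5
    exact h5
  -- the trace
  obtain ⟨l, hl⟩ := LinearMap.exists_leftInverse_of_injective (Algebra.linearMap F E)
    (LinearMap.ker_eq_bot.mpr (algebraMap F E).injective)
  have hP1 : P 1 = 0 := by
    have := hPl 1 1
    simp only [mul_one, one_mul] at this
    simpa using this
  have hQ1 : Q 1 = 0 := by
    have := hQl 1 1
    simp only [mul_one, one_mul] at this
    simpa using this
  set π : Module.End F E := (1 - P ^ (p - 1)) * (1 - Q ^ (p - 1)) with hπ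
  have hPQc : Commute P Q := LinearMap.ext hPQ
  have hπP : ∀ x, π (P x) = 0 := by
    intro x
    have h1 : π * P = 0 := by
      have h2 : (1 - Q ^ (p - 1)) * P = P * (1 - Q ^ (p - 1)) := by
        rw [sub_mul, mul_sub, one_mul, mul_one, ((hPQc.pow_right (p - 1)).eq)]
      rw [hπ, mul_assoc, h2, ← mul_assoc, sub_mul, one_mul, ← pow_succ, h0, hPp, sub_self,
        zero_mul]
    exact LinearMap.congr_fun h1 x
  have hπQ : ∀ x, π (Q x) = 0 := by
    intro x
    have h1 : π * Q = 0 := by
      have h2 : (1 - Q ^ (p - 1)) * Q = 0 := by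
        rw [sub_mul, one_mul, ← pow_succ, h0, hQp, sub_self]
      rw [hπ, mul_assoc, h2, mul_zero]
    exact LinearMap.congr_fun h1 x
  have hπ1 : π 1 = 1 := by
    obtain ⟨q, hq⟩ : ∃ q, p - 1 = q + 1 := ⟨p - 2, by omega⟩
    have h1 : (P ^ (p - 1)) 1 = 0 := by
      rw [hq, pow_succ, Module.End.mul_apply, hP1, map_zero]
    have h2 : (Q ^ (p - 1)) 1 = 0 := by
      rw [hq, pow_succ, Module.End.mul_apply, hQ1, map_zero]
    have h3 : (1 - Q ^ (p - 1)) 1 = (1 : E) := by
      rw [LinearMap.sub_apply, Module.End.one_apply, h2, sub_zero]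
    rw [hπ, Module.End.mul_apply, h3, LinearMap.sub_apply, Module.End.one_apply, h1, sub_zero]
  have hτP : ∀ x, (l.comp π) (P x) = 0 := fun x => by
    rw [LinearMap.comp_apply, hπP, map_zero]
  have hτQ : ∀ x, (l.comp π) (Q x) = 0 := fun x => by
    rw [LinearMap.comp_apply, hπQ, map_zero]
  refine ⟨⟨LinearMap.mk₂ F (fun x y => P x * Q y - Q x * P y) ?_ ?_ ?_ ?_, ?_, ?_, ?_, ?_,
    l.comp π, ?_, ?_⟩⟩
  · intro x y z
    simp only [map_add]
    ring
  · intro c x y
    simp only [map_smul, smul_mul_assoc, smul_sub]
  · intro x y z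
    simp only [map_add]
    ring
  · intro c x y
    simp only [map_smul, mul_smul_comm, smul_sub]
  · intro x
    rw [LinearMap.mk₂_apply]
    ring
  · intro x y z
    rw [LinearMap.mk₂_apply, LinearMap.mk₂_apply, LinearMap.mk₂_apply, hPl, hQl]
    ring
  · intro x y z
    simp only [LinearMap.mk₂_apply, map_sub, LinearMap.sub_apply, hPl, hQl, hPQ]
    ring
  · intro x hx
    have h1 := hx s
    rw [LinearMap.mk₂_apply, hPs, hQs, mul_zero, zero_sub, neg_eq_zero] at h1
    have h2 := hx t
    rw [LinearMap.mk₂_apply, hPt, hQt, mul_zero, sub_zero] at h2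
    exact hker x ((mul_eq_zero.mp h2).resolve_right ht0) ((mul_eq_zero.mp h1).resolve_right hs0)
  · rw [LinearMap.comp_apply, hπ1]
    have h1 := LinearMap.congr_fun hl 1
    rw [LinearMap.comp_apply, Algebra.linearMap_apply, map_one] at h1
    exact h1
  · intro x y
    rw [LinearMap.mk₂_apply]
    have h1 : P x * Q y - Q x * P y = P (x * Q y) - Q (x * P y) := by
      rw [hPl, hQl, hPQ]
      ring
    rw [h1, map_sub, hτP, hτQ, sub_self]

end general

end Pool.Agent.MP9083
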