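import Mathlib
import Pool.Agent.Lib.MP_9083e4_al.PoisEx

/-!
# MP_9083e4_al: all Poisson brackets with `1` outside of the span of the values
-/

namespace Pool.Agent.MP9083

open Module

section defs

variable {F E : Type*} [Field F] [Field E] [Algebra F E]

/-- a nonzero Poisson bracket on the field `E` over `F` such that `1` is not in the span of the
values -/
def IsNonexactPoisson (B : E →ₗ[F] E →ₗ[F] E) : Prop :=
  (∀ x, B x x = 0) ∧ (∀ x y z, B x (y * z) = y * B x z + z * B x y) ∧
    (∀ x y z, B x (B y z) = B (B x y) z + B y (B x z)) ∧ (∃ x y, B x y ≠ 0) ∧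
    (1 : E) ∉ Submodule.span F {z : E | ∃ x y, B x y = z}

end defs

namespace Pois

variable {F E : Type*} [Field F] [Field E] [Algebra F E]

theorem exists_of_bracket {p : ℕ} [hp : Fact p.Prime] (hdim : finrank F E = p ^ 2)
    {B : E →ₗ[F] E →ₗ[F] E} (hB : IsNonexactPoisson B) : ∃ P : Pois F E, P.B = B := by
  have hfin : FiniteDimensional F E := by
    apply Module.finite_of_finrank_pos
    rw [hdim]
    exact pow_pos hp.out.pos 2
  obtain ⟨halt, hleib, hjac, ⟨g, h, hgh⟩, h1⟩ := hB
  obtain ⟨l, hl1, hl⟩ := Submodule.exists_le_ker_of_notMem h1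
  have hanti : ∀ x y, B x y = - B y x := by
    intro x y
    have h := halt (x + y)
    rw [map_add, map_add, LinearMap.add_apply, LinearMap.add_apply, halt, halt] at h
    have h2 : B x y + B y x = 0 := by
      rw [← h]
      abel
    exact eq_neg_of_add_eq_zero_left h2
  have hcen : ∀ x, (∀ y, B x y = 0) → ∃ c : F, algebraMap F E c = x := by
    intro x hx
    by_contra hno
    push Not at hno
    set Cg := kerF (B g) (fun x y => hleib g x y) with hCg
    set Ch := kerF (B h) (fun x y => hleib h x y) with hCh
    have hxg : x ∈ Cg := by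
      change B g x = 0
      rw [hanti, hx, neg_zero]
    have hxh : x ∈ Ch := by
      change B h x = 0
      rw [hanti, hx, neg_zero]
    have hbot : ∀ I : IntermediateField F E, x ∈ I → I ≠ ⊥ := by
      intro I hI h2
      rw [h2, IntermediateField.mem_bot] at hI
      obtain ⟨c, hc⟩ := hI
      exact hno c hc
    have htopg : Cg ≠ ⊤ := by
      intro h2
      have h3 : h ∈ Cg := by
        rw [h2]
        exact IntermediateField.mem_top
      exact hgh h3
    have htopi : Cg ⊓ Ch ≠ ⊤ := by
      intro h2
      have h3 : h ∈ Cg ⊓ Ch := by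
        rw [h2]
        exact IntermediateField.mem_top
      exact hgh h3.1
    have e1 := finrank_of_ne hdim (hbot Cg hxg) htopg
    have e2 := finrank_of_ne hdim (hbot (Cg ⊓ Ch) ⟨hxg, hxh⟩) htopi
    have e3 : Cg ⊓ Ch = Cg :=
      IntermediateField.eq_of_le_of_finrank_eq inf_le_left (e2.1.trans e1.1.symm)
    have e4 : g ∈ Cg ⊓ Ch := by
      rw [e3]
      exact halt g
    have e5 : B h g = 0 := e4.2
    apply hgh
    rw [hanti, e5, neg_zero]
  refine ⟨⟨B, halt, hleib, hjac, hcen, (l 1)⁻¹ • l, ?_, ?_⟩, rfl⟩
  · rw [LinearMap.smul_apply, smul_eq_mul, inv_mul_cancel₀ hl1]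
  · intro x y
    have h2 : l (B x y) = 0 := hl (Submodule.subset_span ⟨x, y, rfl⟩)
    rw [LinearMap.smul_apply, h2, smul_zero]

theorem ker_eq_span {p : ℕ} [hp : Fact p.Prime] (hdim : finrank F E = p ^ 2) (P : Pois F E) :
    LinearMap.ker P.τ = Submodule.span F {z : E | ∃ x y, P.B x y = z} := by
  have hfin : FiniteDimensional F E := by
    apply Module.finite_of_finrank_pos
    rw [hdim]
    exact pow_pos hp.out.pos 2
  apply le_antisymm
  · intro x hx
    by_contra hxS
    obtain ⟨l, hlx, hl⟩ := Submodule.exists_le_ker_of_notMem hxS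
    set R : E →ₗ[F] Module.Dual F E :=
      (LinearMap.compRight F P.τ).comp (LinearMap.mul F E) with hR
    have hRa : ∀ a y, R a y = P.τ (a * y) := fun a y => rfl
    have hRinj : Function.Injective R := by
      rw [← LinearMap.ker_eq_bot, LinearMap.ker_eq_bot']
      intro a ha
      exact P.τ_inj fun y => by rw [← hRa, ha]; rfl
    have hRsurj : Function.Surjective R :=
      (LinearMap.injective_iff_surjective_of_finrank_eq_finrank
        (Subspace.dual_finrank_eq (K := F) (V := E)).symm).mp hRinj
    obtain ⟨a, ha⟩ := hRsurj l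
    have hla : ∀ y, l y = P.τ (a * y) := fun y => by rw [← ha, hRa]
    have hkey : ∀ f' : E, P.B f' a = 0 := by
      intro f'
      apply P.τ_inj
      intro y
      have h2 := P.τ_B f' (a * y)
      rw [P.leib, map_add] at h2
      have h3 : l (P.B f' y) = 0 := hl (Submodule.subset_span ⟨f', y, rfl⟩)
      rw [hla] at h3
      rw [h3, zero_add] at h2
      rw [mul_comm]
      exact h2
    obtain ⟨a0, rfl⟩ := P.cen a (fun y => by rw [P.anti, hkey, neg_zero])
    apply hlx
    rw [hla, ← Algebra.smul_def, map_smul, LinearMap.mem_ker.mp hx, smul_zero]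
  · refine Submodule.span_le.mpr ?_
    rintro _ ⟨x, y, rfl⟩
    exact P.τ_B x y

theorem isNonexactPoisson {p : ℕ} [hp : Fact p.Prime] (hdim : finrank F E = p ^ 2)
    (P : Pois F E) : IsNonexactPoisson P.B := by
  refine ⟨P.alt, P.leib, P.jac, ?_, ?_⟩
  · by_contra hno
    push Not at hno
    have h1 : (⊥ : IntermediateField F E) = ⊤ := by
      rw [eq_top_iff]
      intro x _
      rw [IntermediateField.mem_bot]
      exact P.cen x (hno x)
    rw [IntermediateField.bot_eq_top_iff_finrank_eq_one, hdim] at h1
    have h2 := hp.out.two_le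
    have h3 : 2 ^ 2 ≤ p ^ 2 := Nat.pow_le_pow_left h2 2
    omega
  · rw [← P.ker_eq_span hdim, LinearMap.mem_ker, P.τ_one]
    exact one_ne_zero

theorem exists_B_ne (P : Pois F E) {x : P.PL} (hx : x ≠ 0) :
    ∃ y : E, P.B (P.incl x) y ≠ 0 := by
  by_contra hno
  push Not at hno
  obtain ⟨c, hc⟩ := P.cen _ hno
  have h2 := P.incl_mem x
  rw [← hc, Algebra.algebraMap_eq_smul_one, map_smul, P.τ_one, smul_eq_mul, mul_one] at h2
  apply hx
  apply P.incl_inj
  rw [← hc, h2, map_zero, map_zero]

/-- proper subalgebras have dimension at most `p - 1` -/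
theorem finrank_le {p : ℕ} [hp : Fact p.Prime] [CharP F p] (hdim : finrank F E = p ^ 2)
    (hpow : ∀ x : E, ∃ c : F, algebraMap F E c = x ^ p) (P : Pois F E)
    {S : LieSubalgebra F P.PL} (hS : S ≠ ⊤) : finrank F S ≤ p - 1 := by
  have hfin : FiniteDimensional F E := by
    apply Module.finite_of_finrank_pos
    rw [hdim]
    exact pow_pos hp.out.pos 2
  by_cases h0 : ∃ x ∈ S, x ≠ 0
  · obtain ⟨x, hxS, hx⟩ := h0
    obtain ⟨y, hy⟩ := P.exists_B_ne hx
    set C := P.C (P.incl x) with hC
    have hCp : finrank F C = p := (P.finrank_C hdim hy).1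
    set l : C →ₗ[F] F := P.τ.comp C.val.toLinearMap with hl
    have hl1 : l 1 = 1 := P.τ_one
    have h1 := LinearMap.finrank_range_add_finrank_ker l
    have h2 : LinearMap.range l = ⊤ := by
      rw [LinearMap.range_eq_top]
      intro c
      exact ⟨c • 1, by rw [map_smul, hl1, smul_eq_mul, mul_one]⟩
    rw [h2, finrank_top, Module.finrank_self, hCp] at h1
    set j : S →ₗ[F] LinearMap.ker l :=
      { toFun := fun s => ⟨⟨P.incl s, by
            have h3 := P.abelian hdim hpow hS hxS s.2
            have h4 := congrArg P.incl h3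
            rw [incl_lie, map_zero] at h4
            exact h4⟩, P.incl_mem s⟩
        map_add' := fun a b => rfl
        map_smul' := fun a b => rfl } with hj
    have hjinj : Function.Injective j := by
      intro a b hab
      apply Subtype.ext
      apply P.incl_inj
      exact congrArg (fun z : LinearMap.ker l => ((z : C) : E)) hab
    have h3 := LinearMap.finrank_le_finrank_of_injective hjinj
    omega
  · push Not at h0
    have h1 : Subsingleton S := ⟨fun a b => Subtype.ext (by rw [h0 a a.2, h0 b b.2])⟩
    rw [finrank_zero_of_subsingleton]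
    exact Nat.zero_le _

end Pois

end Pool.Agent.MP9083
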