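import Mathlib
import Pool.Agent.Lib.MP_9083e4_al.Lie

/-!
# MP_9083e4_al: solvability and commutativity over perfect `C1` fields
-/

namespace Pool.Agent.MP9083

open Module

attribute [local instance 100] LieRing.ofAssociativeRing

section quot

variable {F L : Type*} [Field F] [LieRing L] [LieAlgebra F L]

/-- the projection to a quotient, as a homomorphism of Lie algebras -/
def proj (I : LieIdeal F L) : L →ₗ⁅F⁆ (L ⧸ I) where
  toFun := LieSubmodule.Quotient.mk
  map_add' _ _ := rfl
  map_smul' _ _ := rfl
  map_lie' := fun {x y} => LieSubmodule.Quotient.mk_bracket I x y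

theorem proj_surj (I : LieIdeal F L) : Function.Surjective (proj I) :=
  LieSubmodule.Quotient.surjective_mk' I

theorem proj_eq_zero (I : LieIdeal F L) (x : L) : proj I x = 0 ↔ x ∈ I :=
  LieSubmodule.Quotient.mk_eq_zero (N := I) (m := x)

theorem propNil_of_surj {L' : Type*} [LieRing L'] [LieAlgebra F L'] (f : L →ₗ⁅F⁆ L')
    (hf : Function.Surjective f) (H : PropNil F L) : PropNil F L' := by
  intro T hT
  have hS : T.comap f ≠ ⊤ := by
    intro h
    apply hT
    rw [eq_top_iff]
    intro y _
    obtain ⟨x, rfl⟩ := hf y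
    have : x ∈ T.comap f := by
      rw [h]
      exact LieSubalgebra.mem_top x
    exact this
  have hn := H _ hS
  set g : T.comap f →ₗ⁅F⁆ T :=
    { toFun := fun s => ⟨f s, s.2⟩
      map_add' := fun a b => Subtype.ext (map_add f _ _)
      map_smul' := fun c a => Subtype.ext (map_smul f _ _)
      map_lie' := fun {a b} => Subtype.ext (LieHom.map_lie f _ _) } with hg
  have hgs : Function.Surjective g := by
    rintro ⟨y, hy⟩
    obtain ⟨x, rfl⟩ := hf y
    exact ⟨⟨x, hy⟩, rfl⟩
  exact Function.Surjective.lieAlgebra_isNilpotent hgs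

end quot

universe u v

theorem solvable_of_C1 {F : Type v} [Field F] (p : ℕ) [Fact p.Prime] [CharP F p] [PerfectRing F p]
    (hC : IsC1 F) {L : Type u} [LieRing L] [LieAlgebra F L] [FiniteDimensional F L]
    (H : PropNil F L) : LieAlgebra.IsSolvable L := by
  rcases subsingleton_or_nontrivial L with hL | hL
  · infer_instance
  have hbt : (⊥ : LieIdeal F L) ≠ ⊤ := bot_ne_top
  obtain ⟨I, hI, _⟩ := (eq_top_or_exists_le_coatom (⊥ : LieIdeal F L)).resolve_left hbt
  -- the quotient is abelian
  have hab : ∀ x y : L, ⁅x, y⁆ ∈ I := by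
    by_contra hno
    have hsimple : LieAlgebra.IsSimple F (L ⧸ I) := by
      refine ⟨fun J => ?_, fun hA => ?_⟩
      · have hle : I ≤ J.comap (proj I) := by
          intro x hx
          rw [LieIdeal.mem_comap, (proj_eq_zero I x).mpr hx]
          exact J.zero_mem
        rcases eq_or_lt_of_le hle with h | h
        · left
          rw [eq_bot_iff]
          intro q hq
          obtain ⟨x, rfl⟩ := proj_surj I q
          have hx : x ∈ J.comap (proj I) := LieIdeal.mem_comap.mpr hq
          rw [← h] at hx
          rw [LieSubmodule.mem_bot]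
          exact (proj_eq_zero I x).mpr hx
        · right
          have h2 := hI.2 _ h
          rw [eq_top_iff]
          intro q _
          obtain ⟨x, rfl⟩ := proj_surj I q
          have hx : x ∈ J.comap (proj I) := by
            rw [h2]
            exact LieSubmodule.mem_top x
          exact LieIdeal.mem_comap.mp hx
      · apply hno
        intro x y
        rw [← proj_eq_zero, LieHom.map_lie]
        exact hA.trivial _ _
    exact false_of_C1 p hC (propNil_of_surj (proj I) (proj_surj I) H)
  -- the ideal is nilpotent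
  have hIne : LieIdeal.toLieSubalgebra F L I ≠ ⊤ := by
    intro h
    apply hI.1
    rw [eq_top_iff]
    intro x _
    have : x ∈ LieIdeal.toLieSubalgebra F L I := by
      rw [h]
      exact LieSubalgebra.mem_top x
    exact this
  have hIn : LieRing.IsNilpotent I := H _ hIne
  have hIs : LieAlgebra.IsSolvable I := inferInstance
  obtain ⟨k, hk⟩ := (LieAlgebra.isSolvable_iff F I).mp hIs
  rw [LieIdeal.derivedSeries_eq_bot_iff] at hk
  refine (LieAlgebra.isSolvable_iff F L).mpr ⟨k + 1, ?_⟩
  rw [LieAlgebra.derivedSeries_def, LieAlgebra.derivedSeriesOfIdeal_add, eq_bot_iff, ← hk]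
  refine LieAlgebra.derivedSeriesOfIdeal_mono ?_ k
  rw [LieAlgebra.derivedSeriesOfIdeal_succ, LieAlgebra.derivedSeriesOfIdeal_zero,
    LieSubmodule.lieIdeal_oper_eq_span, LieSubmodule.lieSpan_le]
  rintro _ ⟨⟨x, _⟩, ⟨y, _⟩, rfl⟩
  exact hab x y

/-- step (c) -/
theorem abelian_of_C1 {F : Type v} [Field F] (p : ℕ) [Fact p.Prime] [CharP F p]
    [PerfectRing F p] (hC : IsC1 F) :
    ∀ (n : ℕ) (L : Type u) [LieRing L] [LieAlgebra F L] [FiniteDimensional F L],
      finrank F L = n → (∀ x y : L, ⁅x, ⁅x, y⁆⁆ = 0 → ⁅x, y⁆ = 0) → ∀ x y : L, ⁅x, y⁆ = 0 := by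
  intro n
  induction n using Nat.strong_induction_on with
  | _ n ih =>
  intro L _ _ _ hn hP x y
  rcases subsingleton_or_nontrivial L with hL | hL
  · exact Subsingleton.elim _ _
  have hsub : ∀ S : LieSubalgebra F L, S ≠ ⊤ → ∀ a ∈ S, ∀ b ∈ S, ⁅a, b⁆ = 0 := by
    intro S hS a ha b hb
    have hlt : finrank F S < n := by
      rw [← hn]
      apply Submodule.finrank_lt (s := S.toSubmodule)
      intro h
      apply hS
      rw [eq_top_iff]
      intro z _
      have : z ∈ S.toSubmodule := by
        rw [h]
        exact Submodule.mem_top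
      exact this
    have hfS : FiniteDimensional F S := inferInstanceAs (FiniteDimensional F S.toSubmodule)
    have h1 := ih _ hlt S rfl (fun c d hcd => by
      apply Subtype.ext
      exact hP c d (congrArg Subtype.val hcd)) ⟨a, ha⟩ ⟨b, hb⟩
    exact congrArg Subtype.val h1
  have hPN : PropNil F L := by
    intro S hS
    have : IsLieAbelian S := ⟨fun a b => Subtype.ext (hsub S hS a a.2 b b.2)⟩
    infer_instance
  have hsol := solvable_of_C1 p hC hPN
  -- the derived algebra is proper
  set I := LieAlgebra.derivedSeries F L 1 with hI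
  have hItop : I ≠ ⊤ := (LieAlgebra.derivedSeries_lt_top_of_solvable F L).ne
  have hbr : ∀ a b : L, ⁅a, b⁆ ∈ I := fun a b => by
    have h1 : I = ⁅(⊤ : LieIdeal F L), (⊤ : LieIdeal F L)⁆ := by
      rw [hI, LieAlgebra.derivedSeries_def, LieAlgebra.derivedSeriesOfIdeal_succ,
        LieAlgebra.derivedSeriesOfIdeal_zero]
    rw [h1]
    exact LieSubmodule.lie_mem_lie (LieSubmodule.mem_top a) (LieSubmodule.mem_top b)
  have hIne : LieIdeal.toLieSubalgebra F L I ≠ ⊤ := by
    intro h
    apply hItop
    rw [eq_top_iff]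
    intro x _
    have : x ∈ LieIdeal.toLieSubalgebra F L I := by
      rw [h]
      exact LieSubalgebra.mem_top x
    exact this
  have hIab := hsub _ hIne
  have hcen : ∀ a ∈ I, ∀ b : L, ⁅a, b⁆ = 0 := by
    intro a ha b
    apply hP
    exact hIab a ha _ (hbr a b)
  apply hP
  rw [← lie_skew, hcen _ (hbr x y) x, neg_zero]

end Pool.Agent.MP9083
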