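import Mathlib
import Pool.Agent.Lib.MP_9083e4_al.Lie

/-!
# MP_9083e4_al: characteristic zero

Proper subalgebras of a simple Lie algebra all of whose proper subalgebras are nilpotent are
abelian (characteristic zero, by a trace argument).
-/

namespace Pool.Agent.MP9083

open Module

attribute [local instance 100] LieRing.ofAssociativeRing

/-- in characteristic zero an injective endomorphism of a nonzero space has a power of nonzero
trace -/
theorem exists_trace_ne {F W : Type*} [Field F] [CharZero F] [AddCommGroup W] [Module F W]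
    [FiniteDimensional F W] [Nontrivial W] (g : Module.End F W) (hg : LinearMap.ker g = ⊥) :
    ∃ k : ℕ, LinearMap.trace F W (g ^ (k + 1)) ≠ 0 := by
  by_contra hno
  push Not at hno
  have h1 := LinearMap.aeval_self_charpoly g
  rw [Polynomial.aeval_eq_sum_range] at h1
  have h2 := congrArg (LinearMap.trace F W) h1
  rw [map_sum, map_zero, Finset.sum_range_succ'] at h2
  simp only [map_smul, hno, smul_zero, Finset.sum_const_zero, zero_add, pow_zero] at h2
  rw [LinearMap.trace_one, smul_eq_mul] at h2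
  have h3 : (finrank F W : F) ≠ 0 := by
    have := Module.finrank_pos (R := F) (M := W)
    exact_mod_cast this.ne'
  have h4 : g.charpoly.coeff 0 = 0 := (mul_eq_zero.mp h2).resolve_right h3
  have h5 := LinearMap.det_eq_sign_charpoly_coeff g
  rw [h4, mul_zero] at h5
  have h6 := LinearMap.bot_lt_ker_of_det_eq_zero h5
  rw [hg] at h6
  exact lt_irrefl _ h6

variable {F L : Type*} [Field F] [LieRing L] [LieAlgebra F L] [FiniteDimensional F L]

/-- the Fitting-one component of a central element -/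
noncomputable def fit (S : LieSubalgebra F L) (z : L) (hz : ∀ m ∈ S, ⁅z, m⁆ = 0) (N : ℕ) :
    LieSubmodule F S L where
  toSubmodule := LinearMap.range ((LieAlgebra.ad F L z) ^ N)
  lie_mem := by
    rintro m _ ⟨u, rfl⟩
    refine ⟨⁅m, u⁆, ?_⟩
    have hc : Commute ((LieAlgebra.ad F L z) ^ N) (LieAlgebra.ad F L (m : L)) := by
      refine Commute.pow_left ?_ N
      refine LinearMap.ext fun u => ?_
      rw [Module.End.mul_apply, Module.End.mul_apply, LieAlgebra.ad_apply, LieAlgebra.ad_apply,
        LieAlgebra.ad_apply, LieAlgebra.ad_apply, leibniz_lie, hz m m.2, zero_lie, zero_add]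
    exact LinearMap.congr_fun hc.eq u

omit [FiniteDimensional F L] in
theorem mem_fit {S : LieSubalgebra F L} {z : L} {hz : ∀ m ∈ S, ⁅z, m⁆ = 0} {N : ℕ} {w : L} :
    w ∈ fit S z hz N ↔ ∃ u, ((LieAlgebra.ad F L z) ^ N) u = w := Iff.rfl

theorem abelian_char_zero [CharZero F] [LieAlgebra.IsSimple F L] (H : PropNil F L)
    {S : LieSubalgebra F L} (hS : S ≠ ⊤) {x y : L} (hx : x ∈ S) (hy : y ∈ S) : ⁅x, y⁆ = 0 := by
  by_contra hxy
  have hSn : LieModule.IsNilpotent S S := H S hS
  have hnt : ¬ LieModule.IsTrivial S S := fun h => hxy (by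
    have h1 : ⁅(⟨x, hx⟩ : S), (⟨y, hy⟩ : S)⁆ = 0 := h.trivial _ _
    exact congrArg Subtype.val h1)
  have hSnt : Nontrivial S := ⟨⟨⟨x, hx⟩, 0, fun h => by
    apply hxy
    have h1 : x = 0 := congrArg Subtype.val h
    rw [h1, zero_lie]⟩⟩
  have hlast := LieModule.nontrivial_lowerCentralSeriesLast F S S
  obtain ⟨z'', hz''⟩ := exists_ne (0 : LieModule.lowerCentralSeriesLast F S S)
  set z' : S := (z'' : S) with hz'
  have hz1 : z' ∈ LieModule.lowerCentralSeries F S S 1 :=
    LieModule.lowerCentralSeriesLast_le_of_not_isTrivial F S S hnt z''.2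
  have hz2 : z' ∈ LieModule.maxTrivSubmodule F S S :=
    LieModule.lowerCentralSeriesLast_le_max_triv F S S z''.2
  set z : L := (z' : L) with hz
  have hz0 : z ≠ 0 := by
    intro h
    apply hz''
    apply Subtype.ext
    apply Subtype.ext
    exact h
  have hzc : ∀ m ∈ S, ⁅z, m⁆ = 0 := by
    intro m hm
    have h1 := (LieModule.mem_maxTrivSubmodule F S S z').mp hz2 ⟨m, hm⟩
    have h2 : ⁅m, z⁆ = 0 := congrArg Subtype.val h1
    rw [← lie_skew, h2, neg_zero]
  have hnn := not_adnil H hz0
  set f := LieAlgebra.ad F L z with hf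
  set N := finrank F L with hN
  have hfN : f ^ N ≠ 0 := fun h => hnn ⟨N, h⟩
  set W := fit S z hzc N with hW
  have hWnt : Nontrivial W := by
    obtain ⟨u, hu⟩ : ∃ u, (f ^ N) u ≠ 0 := by
      by_contra hno
      push Not at hno
      exact hfN (LinearMap.ext hno)
    exact ⟨⟨⟨_, mem_fit.mpr ⟨u, rfl⟩⟩, 0, fun h => hu (congrArg Subtype.val h)⟩⟩
  have hWfin : FiniteDimensional F W :=
    inferInstanceAs (FiniteDimensional F (LinearMap.range ((LieAlgebra.ad F L z) ^ N)))
  set φ := LieModule.toEnd F S W with hφ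
  set g : Module.End F W := φ z' with hg
  have hgc : ∀ m : S, Commute g (φ m) := by
    intro m
    have h1 : ⁅g, φ m⁆ = 0 := by
      rw [hg, ← LieHom.map_lie]
      have : ⁅z', m⁆ = 0 := Subtype.ext (hzc m m.2)
      rw [this, map_zero]
    exact sub_eq_zero.mp h1
  have hgker : LinearMap.ker g = ⊥ := by
    rw [LinearMap.ker_eq_bot']
    rintro ⟨w, hw⟩ hgw
    obtain ⟨u, rfl⟩ := mem_fit.mp hw
    have h1 : f ((f ^ N) u) = 0 := congrArg Subtype.val hgw
    have h2 : u ∈ LinearMap.ker (f ^ (N + 1)) := by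
      rw [LinearMap.mem_ker, pow_succ', Module.End.mul_apply]
      exact h1
    rw [Module.End.ker_pow_eq_ker_pow_finrank_of_le (Nat.le_add_right N 1)] at h2
    exact Subtype.ext h2
  obtain ⟨k, hk⟩ := exists_trace_ne g hgker
  apply hk
  -- the functional
  set τ : S →ₗ[F] F := (LinearMap.trace F W).comp
    ((LinearMap.mulRight F (g ^ k)).comp φ.toLinearMap) with hτ
  have hτa : ∀ m : S, τ m = LinearMap.trace F W (φ m * g ^ k) := fun m => rfl
  have hτb : ∀ a b : S, τ ⁅a, b⁆ = 0 := by
    intro a b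
    rw [hτa, LieHom.map_lie]
    change LinearMap.trace F W ((φ a * φ b - φ b * φ a) * g ^ k) = 0
    rw [sub_mul, map_sub, mul_assoc, mul_assoc, LinearMap.trace_mul_comm F (φ b), mul_assoc,
      ((hgc b).pow_left k).eq, sub_self]
  have hz3 : z' ∈ (LieModule.lowerCentralSeries F S S 1).toSubmodule := hz1
  rw [LieModule.lowerCentralSeries_succ, LieModule.lowerCentralSeries_zero,
    LieSubmodule.lieIdeal_oper_eq_linear_span'] at hz3
  have h1 : τ z' = 0 := by
    have h2 : Submodule.span F {m : S | ∃ x ∈ (⊤ : LieIdeal F S), ∃ n ∈ (⊤ : LieSubmodule F S S),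
        ⁅x, n⁆ = m} ≤ LinearMap.ker τ := by
      refine Submodule.span_le.mpr ?_
      rintro _ ⟨a, _, b, _, rfl⟩
      exact hτb a b
    exact h2 hz3
  rw [hτa] at h1
  rw [pow_succ']
  exact h1

end Pool.Agent.MP9083
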